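import Pool.Agent.H49.FS.ExtA

/-!
# Module ConcQ: concentration of the size of `Q ∪ {X > t}`

Copy `conc_Sd` (`Pool/Agent/H49/FR/ConcF.lean`): `conc_gen` with `E v = {ω | v ∈ Ax Q t ω}`, `P v = {v}`, `T v = ball v (2 r)` (`card_ind` is private there). The expectation is
`∑_v μ {v ∈ Ax} = |Q| + Pt t (n - |Q|)` (`prob_gt` for `v ∉ Q`, measure one for `v ∈ Q`; split the sum over `Q` and `Qᶜ`).
-/

set_option autoImplicit false

open Finset MeasureTheory ProbabilityTheory

namespace Pool.Agent.H49.FS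

open Pool.Agent.H49.FR

variable {V : Type} [Fintype V] [DecidableEq V] (G : SimpleGraph V) [DecidableRel G.Adj]

private lemma card_ind' (A : EuclideanSpace ℝ V → Finset V) (ω : EuclideanSpace ℝ V) :
    ((A ω).card : ℝ) = ∑ v, ({ω | v ∈ A ω} : Set (EuclideanSpace ℝ V)).indicator
      (fun _ => (1 : ℝ)) ω := by
  simp [Set.indicator_apply]

private lemma mem_Ax (Q : Finset V) (t : ℝ) (ω : EuclideanSpace ℝ V) (v : V) :
    v ∈ Ax Q t ω ↔ v ∈ Q ∨ t < ω v := by
  unfold Ax
  simp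

theorem conc_Ax {d : ℕ} (hreg : G.IsRegularOfDegree d) {ρ : ℝ} {r : ℕ} {S : Matrix V V ℝ}
    (hS : Cv G ρ r S) (Q : Finset V) (t : ℝ) :
    ∫ ω, |((Ax Q t ω).card : ℝ) - (Q.card + Pt t * ((Fintype.card V : ℝ) - Q.card))|
        ∂(multivariateGaussian 0 S) ≤
      Real.sqrt ((d + 1) ^ (2 * r) * Fintype.card V) := by
  have h := conc_gen hS.psd (fun v => {ω : EuclideanSpace ℝ V | v ∈ Ax Q t ω})
    (fun v => measurableSet_Ax Q t v) (fun v => {v})
    (fun v ω ω' hω hv => by
      have h1 : ω v = ω' v := hω v (Finset.mem_singleton_self v)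
      have h2 : v ∈ Q ∨ t < ω v := (mem_Ax Q t ω v).1 hv
      rw [h1] at h2
      exact (mem_Ax Q t ω' v).2 h2)
    ((d + 1) ^ (2 * r)) (fun v => ball G v (2 * r)) (fun v => ball_card G hreg v (2 * r))
    (fun v w hw a ha b hb => by
      rw [Finset.mem_singleton] at ha hb
      subst ha
      subst hb
      by_contra hne
      obtain ⟨x, hx1, hx2⟩ := hS.loc _ _ hne
      have h3 := ball_trans G hx1 (ball_symm G hx2)
      rw [← two_mul] at h3
      exact hw h3)
  have h4 : (((d + 1) ^ (2 * r) : ℕ) : ℝ) = ((d : ℝ) + 1) ^ (2 * r) := by push_cast; ring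
  rw [h4] at h
  have hsum : ∑ v, (multivariateGaussian 0 S).real {ω : EuclideanSpace ℝ V | v ∈ Ax Q t ω} =
      Q.card + Pt t * ((Fintype.card V : ℝ) - Q.card) := by
    have hv1 : ∀ v ∈ Q, (multivariateGaussian 0 S).real {ω : EuclideanSpace ℝ V | v ∈ Ax Q t ω} = 1 := by
      intro v hv
      have e : {ω : EuclideanSpace ℝ V | v ∈ Ax Q t ω} = Set.univ := by
        ext ω
        simp [mem_Ax, hv]
      rw [e]
      simp
    have hv2 : ∀ v ∈ Qᶜ, (multivariateGaussian 0 S).real {ω : EuclideanSpace ℝ V | v ∈ Ax Q t ω} = Pt t := by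
      intro v hv
      have hv' : v ∉ Q := Finset.mem_compl.1 hv
      have e : {ω : EuclideanSpace ℝ V | v ∈ Ax Q t ω} = {ω : EuclideanSpace ℝ V | t < ω v} := by
        ext ω
        simp [mem_Ax, hv']
      rw [e]
      exact prob_gt hS.psd (hS.diag v) t
    rw [← Finset.sum_add_sum_compl Q, Finset.sum_congr rfl hv1, Finset.sum_congr rfl hv2]
    rw [Finset.sum_const, Finset.sum_const, Finset.card_compl, nsmul_eq_mul, nsmul_eq_mul,
      Nat.cast_sub (Finset.card_le_univ Q)]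
    ring
  refine le_trans (le_of_eq ?_) h
  refine integral_congr_ae (Filter.Eventually.of_forall fun ω => ?_)
  show |((Ax Q t ω).card : ℝ) - _| = |_ - _|
  rw [card_ind' (fun ω => Ax Q t ω) ω, hsum]

end Pool.Agent.H49.FS
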