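import Pool.Agent.H49.FS.ExtB
import Pool.Agent.H49.FS.ConcQ

/-!
# Module Core: a set of size `μ n` can be extended cheaply

`P = Pt t`, `0 < P < 1/2` (hypotheses), `μ = (1-2P)/(2(1-P))`, `K = Kf (t²/2) (arccos ρ) ≥ 0`, `Δ = (L(1-2P) - 2(1-P) g)(P+K) + L P - d K > 0`. With `2(1-P)μ = 1-2P`,
`2(1-P)(1/2-μ) = P`, `2(1-P)(1-μ) = 1` this is `(L μ - g)(P+K) + L(1/2-μ) - d K (1-μ) = Δ/(2(1-P)) =: δ > 0`. Take `r` from `exists_cov` (`ρ < 2 √(d-1)/d`) and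
`n₀` so large that for `n > n₀`: `(L + d + 1)(√((d+1)^(2r) n) + 2) + C' < δ n`, `C' = 2 K d + 2 L + |C| (P + K) + L` (or any convenient bound; as in `FR/Wave.lean`, with
`√(D n) ≤ ε n` for `n ≥ D/ε²`).
Suppose no such `A'` exists: `cut Q - L (μ n + 1) ≤ cut A' - L n/2 + (L+d+1) | |A'| - n/2 |` for all `A'`, in particular for `Ax Q t ω`, every `ω`. Integrate (`integrable_cut_Ax`,
`integrable_card_Ax`, `ext_cut`, `conc_Ax`): with `q = |Q|`, `χ = cut Q`, `| q + P(n-q) - n/2 | = |(q - μ n)(1-P)| ≤ 2` (`μ n + P(n - μ n) = n/2`)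
`χ - L(μ n + 1) + L n/2 ≤ (1-P) χ + K (d (n-q) - χ) + (L+d+1)(√(D n) + 2)`, i.e. `χ (P+K) ≤ K d (n-q) - L(n/2 - μ n) + L + (L+d+1)(√(D n)+2)`, and `n - q ≤ n - μ n + 2`,
`χ ≥ L μ n - g n - C`: so `δ n ≤ const + (L+d+1)(√(D n) + 2)`, contradiction.
-/

set_option autoImplicit false

open Finset MeasureTheory ProbabilityTheory

namespace Pool.Agent.H49.FS

open Pool.Agent.H49.FR

private lemma Kf_nonneg' {s θ : ℝ} (h : 0 ≤ θ) : 0 ≤ Kf s θ := by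
  unfold Kf
  have h1 := Real.pi_pos
  have h2 : θ - s * θ ^ 3 / 12 + s ^ 2 * θ ^ 5 / 160 =
      θ * ((1 - (s * θ ^ 2 / 4) / 6) ^ 2 + (1 / 10 - 1 / 36) * (s * θ ^ 2 / 4) ^ 2) := by ring
  rw [h2]
  positivity

private lemma dlt {P K L g D : ℝ} (hP : P < 1 / 2)
    (h : D * K < (L * (1 - 2 * P) - 2 * (1 - P) * g) * (P + K) + L * P) :
    0 < (L * ((1 - 2 * P) / (2 * (1 - P))) - g) * (P + K) + L * (1 / 2 - (1 - 2 * P) / (2 * (1 - P))) -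
      D * K * (1 - (1 - 2 * P) / (2 * (1 - P))) := by
  have h1 : 0 < 2 * (1 - P) := by linarith
  have h2 : (L * ((1 - 2 * P) / (2 * (1 - P))) - g) * (P + K) + L * (1 / 2 - (1 - 2 * P) / (2 * (1 - P))) -
      D * K * (1 - (1 - 2 * P) / (2 * (1 - P))) =
      ((L * (1 - 2 * P) - 2 * (1 - P) * g) * (P + K) + L * P - D * K) / (2 * (1 - P)) := by
    have h3 : 1 - P ≠ 0 := by linarith
    field_simp
    ring
  rw [h2]
  exact div_pos (by linarith) h1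

theorem core {d : ℕ} (hd : 2 ≤ d) {ρ t L g C : ℝ} (hρ0 : 0 ≤ ρ) (hρ : ρ < 2 * Real.sqrt ((d : ℝ) - 1) / d)
    (ht : 0 ≤ t) (hP0 : 0 < Pt t) (hP1 : Pt t < 1 / 2) (hL : 0 ≤ L) (hC : 0 ≤ C)
    (h : d * Kf (t ^ 2 / 2) (Real.arccos ρ) <
      (L * (1 - 2 * Pt t) - 2 * (1 - Pt t) * g) * (Pt t + Kf (t ^ 2 / 2) (Real.arccos ρ)) + L * Pt t) :
    ∃ n₀ : ℕ, ∀ (V : Type) [Fintype V] [DecidableEq V] (G : SimpleGraph V)
      [DecidableRel G.Adj], G.IsRegularOfDegree d → n₀ < Fintype.card V → ∀ Q : Finset V,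
      |(Q.card : ℝ) - (1 - 2 * Pt t) / (2 * (1 - Pt t)) * Fintype.card V| ≤ 2 →
      L * ((1 - 2 * Pt t) / (2 * (1 - Pt t)) * Fintype.card V) - g * Fintype.card V - C ≤ cut G Q →
      ∃ A' : Finset V, (cut G A' : ℝ) - L * (Fintype.card V / 2) +
          (L + (d + 1)) * |(A'.card : ℝ) - Fintype.card V / 2| <
        cut G Q - L * ((1 - 2 * Pt t) / (2 * (1 - Pt t)) * Fintype.card V + 1) := by
  obtain ⟨r, hr⟩ := exists_cov hd hρ
  obtain ⟨P, hP⟩ : ∃ x, x = Pt t := ⟨_, rfl⟩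
  obtain ⟨K, hK⟩ : ∃ x, x = Kf (t ^ 2 / 2) (Real.arccos ρ) := ⟨_, rfl⟩
  have hK0 : 0 ≤ K := by
    rw [hK]
    exact Kf_nonneg' (Real.arccos_nonneg ρ)
  rw [← hP, ← hK] at h
  rw [← hP] at hP0 hP1
  rw [← hP]
  have hδ := dlt hP1 h
  obtain ⟨m, hm⟩ : ∃ x, x = (1 - 2 * P) / (2 * (1 - P)) := ⟨_, rfl⟩
  have hmP : m * (1 - P) + P = 1 / 2 := by
    have h3 : 1 - P ≠ 0 := by linarith
    rw [hm]
    field_simp
    ring
  rw [← hm] at hδ ⊢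
  obtain ⟨δ, hδd⟩ : ∃ x, x = (L * m - g) * (P + K) + L * (1 / 2 - m) - (d : ℝ) * K * (1 - m) := ⟨_, rfl⟩
  rw [← hδd] at hδ
  have hd0 : (0 : ℝ) ≤ d := Nat.cast_nonneg d
  obtain ⟨B, hB⟩ : ∃ x : ℝ, x = L + (d + 1) := ⟨_, rfl⟩
  have hB0 : 0 < B := by rw [hB]; linarith
  obtain ⟨D, hD⟩ : ∃ x : ℝ, x = ((d : ℝ) + 1) ^ (2 * r) := ⟨_, rfl⟩
  have hD0 : 0 < D := by rw [hD]; positivity
  obtain ⟨C', hC'⟩ : ∃ x : ℝ, x = C * (P + K) + 2 * K * d + L + 2 * B := ⟨_, rfl⟩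
  have hC'0 : 0 < C' := by rw [hC']; positivity
  refine ⟨⌈B ^ 2 * D / (δ / 4) ^ 2⌉₊ + ⌈C' / (δ / 4)⌉₊, ?_⟩
  intro V _ _ G _ hreg hn Q hQ hcutQ
  obtain ⟨S, hS⟩ := hr V G hreg
  by_contra hcon
  push Not at hcon
  obtain ⟨n, hn'⟩ : ∃ x : ℝ, x = (Fintype.card V : ℝ) := ⟨_, rfl⟩
  obtain ⟨μ, hμ⟩ : ∃ x, x = multivariateGaussian (0 : EuclideanSpace ℝ V) S := ⟨_, rfl⟩
  rw [← hn'] at hQ hcutQ hcon
  have hn0 : 0 < n := by
    have h1 : 0 < Fintype.card V := lt_of_le_of_lt (Nat.zero_le _) hn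
    rw [hn']
    exact_mod_cast h1
  have hn1 : (⌈B ^ 2 * D / (δ / 4) ^ 2⌉₊ : ℝ) + (⌈C' / (δ / 4)⌉₊ : ℝ) ≤ n := by
    rw [hn']
    exact_mod_cast hn.le
  have hnD : B ^ 2 * D / (δ / 4) ^ 2 ≤ n := by
    have h1 : B ^ 2 * D / (δ / 4) ^ 2 ≤ (⌈B ^ 2 * D / (δ / 4) ^ 2⌉₊ : ℝ) := Nat.le_ceil _
    have h2 : (0 : ℝ) ≤ (⌈C' / (δ / 4)⌉₊ : ℝ) := Nat.cast_nonneg _
    linarith
  have hnC : C' ≤ δ / 4 * n := by
    have h1 : C' / (δ / 4) ≤ (⌈C' / (δ / 4)⌉₊ : ℝ) := Nat.le_ceil _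
    have h2 : (0 : ℝ) ≤ (⌈B ^ 2 * D / (δ / 4) ^ 2⌉₊ : ℝ) := Nat.cast_nonneg _
    have h3 : C' / (δ / 4) ≤ n := by linarith
    rw [div_le_iff₀ (by positivity)] at h3
    linarith
  have hKs : B * Real.sqrt (D * n) ≤ δ / 4 * n := by
    rw [div_le_iff₀ (by positivity)] at hnD
    have h1 : B * Real.sqrt (D * n) = Real.sqrt (B ^ 2 * (D * n)) := by
      rw [Real.sqrt_mul (x := B ^ 2) (by positivity) (D * n), Real.sqrt_sq hB0.le]
    rw [h1, show δ / 4 * n = Real.sqrt ((δ / 4 * n) ^ 2) from (Real.sqrt_sq (by positivity)).symm]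
    refine Real.sqrt_le_sqrt ?_
    nlinarith [mul_le_mul_of_nonneg_right hnD hn0.le]
  obtain ⟨q, hq⟩ : ∃ x : ℝ, x = (Q.card : ℝ) := ⟨_, rfl⟩
  obtain ⟨χ, hχ⟩ : ∃ x : ℝ, x = (cut G Q : ℝ) := ⟨_, rfl⟩
  rw [← hq] at hQ
  rw [← hχ] at hcutQ hcon
  have hQ' := abs_le.1 hQ
  -- the centre
  have hcen : |q + P * (n - q) - n / 2| ≤ 2 := by
    have e1 : q + P * (n - q) - n / 2 = (1 - P) * (q - m * n) := by
      have : n / 2 = (m * (1 - P) + P) * n := by rw [hmP]; ring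
      rw [this]; ring
    rw [e1, abs_mul, abs_of_pos (by linarith : 0 < 1 - P)]
    have h1 : (1 - P) * |q - m * n| ≤ 1 * |q - m * n| :=
      mul_le_mul_of_nonneg_right (by linarith) (abs_nonneg _)
    linarith
  have key : ∀ ω : EuclideanSpace ℝ V, χ - L * (m * n + 1) + L * (n / 2) - 2 * B ≤
      (cut G (Ax Q t ω) : ℝ) + B * |((Ax Q t ω).card : ℝ) - (q + P * (n - q))| := by
    intro ω
    have h1 := hcon (Ax Q t ω)
    rw [← hB] at h1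
    have h2 : |((Ax Q t ω).card : ℝ) - n / 2| ≤
        |((Ax Q t ω).card : ℝ) - (q + P * (n - q))| + |q + P * (n - q) - n / 2| := by
      have e : ((Ax Q t ω).card : ℝ) - n / 2 =
          (((Ax Q t ω).card : ℝ) - (q + P * (n - q))) + (q + P * (n - q) - n / 2) := by ring
      rw [e]
      exact abs_add_le _ _
    have h3 := mul_le_mul_of_nonneg_left (h2.trans (add_le_add_right hcen _)) hB0.le
    linarith
  have iS := integrable_card_Ax (V := V) S Q t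
  have iC := integrable_cut_Ax G S Q t
  rw [← hμ] at iS iC
  have hprob : IsProbabilityMeasure μ := by
    rw [hμ]
    infer_instance
  have iA : Integrable (fun ω : EuclideanSpace ℝ V => |((Ax Q t ω).card : ℝ) - (q + P * (n - q))|) μ :=
    (iS.sub (integrable_const (q + P * (n - q)))).abs
  have hint := integral_mono (μ := μ) (integrable_const (χ - L * (m * n + 1) + L * (n / 2) - 2 * B))
    (iC.add (iA.const_mul B)) key
  have e1 : ∫ ω, ((cut G (Ax Q t ω) : ℝ) + B * |((Ax Q t ω).card : ℝ) - (q + P * (n - q))|) ∂μ =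
      (∫ ω, (cut G (Ax Q t ω) : ℝ) ∂μ) + B * ∫ ω, |((Ax Q t ω).card : ℝ) - (q + P * (n - q))| ∂μ := by
    rw [integral_add iC (iA.const_mul B), integral_const_mul]
  have hint2 : χ - L * (m * n + 1) + L * (n / 2) - 2 * B ≤
      (∫ ω, (cut G (Ax Q t ω) : ℝ) ∂μ) + B * ∫ ω, |((Ax Q t ω).card : ℝ) - (q + P * (n - q))| ∂μ := by
    rw [← e1]
    have h2 : ∫ _ω : EuclideanSpace ℝ V, (χ - L * (m * n + 1) + L * (n / 2) - 2 * B) ∂μ =
        χ - L * (m * n + 1) + L * (n / 2) - 2 * B := by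
      simp
    rw [h2] at hint
    exact hint
  have b1 : ∫ ω, (cut G (Ax Q t ω) : ℝ) ∂μ ≤ (1 - P) * χ + K * (d * (n - q) - χ) := by
    have h1 := ext_cut G hreg hρ0 hS Q ht
    rw [← hμ, ← hn', ← hq, ← hχ, ← hP, ← hK] at h1
    exact h1
  have b2 : ∫ ω, |((Ax Q t ω).card : ℝ) - (q + P * (n - q))| ∂μ ≤ Real.sqrt (D * n) := by
    have h1 := conc_Ax G hreg hS Q t
    rw [← hμ, ← hn', ← hq, ← hP, ← hD] at h1
    exact h1
  have b3 : B * ∫ ω, |((Ax Q t ω).card : ℝ) - (q + P * (n - q))| ∂μ ≤ δ / 4 * n :=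
    (mul_le_mul_of_nonneg_left b2 hB0.le).trans hKs
  -- the final computation
  have c1 : χ * (P + K) ≤ K * d * (n - q) - L * (n / 2 - m * n) + L + 2 * B + δ / 4 * n := by
    linarith
  have c2 : K * d * (n - q) ≤ K * d * (n - m * n + 2) :=
    mul_le_mul_of_nonneg_left (by linarith) (by positivity)
  have c3 : (L * (m * n) - g * n - C) * (P + K) ≤ χ * (P + K) :=
    mul_le_mul_of_nonneg_right hcutQ (by positivity)
  have c4 : δ * n = (L * (m * n) - g * n) * (P + K) + L * (n / 2 - m * n) - K * d * (n - m * n) := by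
    rw [hδd]
    ring
  have c5 : δ * n ≤ C' + δ / 4 * n := by
    rw [c4, hC']
    linarith
  have c6 : 0 < δ * n := by positivity
  linarith

end Pool.Agent.H49.FS
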