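import Pool.Agent.H49.FS.Defs

/-!
# Module CutC: the cut of the complement

`cut A = ∑_{u ∈ A} |N(u) ∩ Aᶜ|` is the number of pairs `(u, v)`, `u ∈ A`, `v ∉ A`, `u ~ v`; exchange the sums (`Finset.sum_comm`, `G.adj_comm`) and `compl_compl`.
`cut_out`: `∑_{u ∈ Aᶜ} nin u Aᶜ = ∑_{u ∈ Aᶜ} (d - nin u A) = d |Aᶜ| - cut Aᶜ` (`nin_add` in `FR/Pot`).
-/

set_option autoImplicit false

open Finset

namespace Pool.Agent.H49.FS

open Pool.Agent.H49.FR

variable {V : Type} [Fintype V] [DecidableEq V] (G : SimpleGraph V) [DecidableRel G.Adj]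

private lemma cc_nin_eq_sum (v : V) (A : Finset V) :
    nin G v A = ∑ w ∈ A, if G.Adj v w then 1 else 0 := by
  unfold nin
  rw [← Finset.card_filter]
  congr 1
  ext w
  simp [and_comm]

theorem cut_compl (A : Finset V) : cut G Aᶜ = cut G A := by
  unfold cut
  rw [compl_compl]
  simp only [cc_nin_eq_sum]
  rw [Finset.sum_comm]
  refine Finset.sum_congr rfl fun u _ => Finset.sum_congr rfl fun w _ => ?_
  simp only [G.adj_comm u w]

theorem cut_out {d : ℕ} (hreg : G.IsRegularOfDegree d) (A : Finset V) :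
    (∑ u ∈ Aᶜ, nin G u Aᶜ) + cut G A = d * (Aᶜ).card := by
  rw [← cut_compl G A]
  unfold cut
  rw [compl_compl, ← Finset.sum_add_distrib]
  have h : ∀ u ∈ Aᶜ, nin G u Aᶜ + nin G u A = d := fun u _ => by
    rw [Nat.add_comm, nin_add G u A, hreg u]
  rw [Finset.sum_congr rfl h, Finset.sum_const, smul_eq_mul, Nat.mul_comm]

end Pool.Agent.H49.FS
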