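import Pool.Agent.H49.FR.Pot
import Pool.Agent.H49.FR.Cov
import Pool.Agent.H49.FR.ConcF

/-!
# Internal partitions of regular graphs of degree 5, 6, 7, 8, 9, 11 (MP_363a78_co): second method

THEOREM: for `(d,a,b) = (5,3,3), (6,3,3), (7,3,4), (8,4,4), (9,4,5), (11,5,6)` every `d`-regular graph on `n > n₀` vertices has an `(a,b)`-internal
partition with both parts of size at least `c n` (`c = 1/50, 1/4, 1/3, 1/125, 1/6, 1/500`). In particular every large 8-regular graph has an internal
partition. Library: `Pool/Agent/H49/FR` (complete).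

PROOF. `p = d + 2 - 2a` (`2 a + p = d + 2`, `b = a`; or `p = 3`, `d = 2a + 1`, `b = a + 1`). Let `t > 0`, `P = γ(t, ∞)`, `μ = (1-2P)/(2(1-P))`, so that
`μ + P(1-μ) = 1/2`. Let `A` minimise `cut A - ph |A|`, where `ph x = L min x (N-x) - (d+1)(max 0 (m-x) + max 0 (x-(N-m)))`, `m = μ n`, `L = lam p < p`,
`N = n` (`b = a`) or `N = n + 1` (`b = a + 1`): a tent of slope `L < p` on `[m, N-m]` with steep ends. If `|A|` is not near `m` or `N - m` then `A`
is internal (`PotA`, `PotB`) and has `≥ m ≥ c n` vertices on both sides. Otherwise let `Q = A` or `Aᶜ`, `|Q| ≈ m`. If `cut Q < L |Q| - g n`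
(`g = p c`) there is an internal partition with parts `≥ c n` by the first method (`exists_part`, `exists_odd`). If `cut Q ≥ L |Q| - g n`, add to `Q` the vertices
outside `Q` with `X_v > t`, where `X` is the Gaussian process with correlation `≥ ρ ≈ 2 √(d-1)/d` on the edges: the new set has about `n/2` vertices and expected cut
`≤ (1-P) cut Q + K (d (n-|Q|) - cut Q)`, `K = Kf (t²/2) (arccos ρ)` (`ExtB`), which is less than `cut Q + L (n/2 - m)` if
`d K < (L(1-2P) - 2(1-P) g)(P+K) + L P` (`Core`): contradiction to the minimality of `A`.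
-/

set_option autoImplicit false

open Finset MeasureTheory ProbabilityTheory

namespace Pool.Agent.H49.FS

open Pool.Agent.H49.FR

variable {V : Type} [Fintype V] [DecidableEq V]

/-- bound for the probability that a level `t` separates two Gaussian variables, `s = t²/2`, `θ ≥ arccos` of the correlation -/
noncomputable def Kf (s θ : ℝ) : ℝ :=
  Real.exp (-s) / (2 * Real.pi) * (θ - s * θ ^ 3 / 12 + s ^ 2 * θ ^ 5 / 160)

/-- the probability `γ(t, ∞)` -/
noncomputable def Pt (t : ℝ) : ℝ := (gaussianReal 0 1).real (Set.Ioi t)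

/-- `Q` and the vertices above the level `t` -/
noncomputable def Ax (Q : Finset V) (t : ℝ) (ω : EuclideanSpace ℝ V) : Finset V :=
  Q ∪ univ.filter fun v => t < ω v

/-- the size function: a tent of slope `L` on `[m, N-m]` with steep ends -/
noncomputable def ph (L D N m x : ℝ) : ℝ := L * min x (N - x) - D * (max 0 (m - x) + max 0 (x - (N - m)))

end Pool.Agent.H49.FS
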