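import Pool.Agent.H49.FS.Defs

/-!
# Module KMono: `Kf` is monotone in the angle

`q(θ) = θ - s θ³/12 + s² θ⁵/160` has the derivative `1 - y + y²/2 ≥ 1/2 > 0`, `y = s θ²/4` (`strictMono_of_deriv_pos` or `monotone_of_deriv_nonneg`), and
`exp(-s)/(2π) > 0`. `Kf_nonneg`: `q 0 = 0` and monotone.
-/

set_option autoImplicit false

namespace Pool.Agent.H49.FS

private theorem q_deriv (s θ : ℝ) : HasDerivAt (fun θ : ℝ => θ - s * θ ^ 3 / 12 + s ^ 2 * θ ^ 5 / 160)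
    (1 - s * (3 * θ ^ 2) / 12 + s ^ 2 * (5 * θ ^ 4) / 160) θ := by
  have h3 : HasDerivAt (fun θ : ℝ => θ ^ 3) (3 * θ ^ 2) θ := by simpa using hasDerivAt_pow 3 θ
  have h5 : HasDerivAt (fun θ : ℝ => θ ^ 5) (5 * θ ^ 4) θ := by simpa using hasDerivAt_pow 5 θ
  exact ((hasDerivAt_id θ).sub ((h3.const_mul s).div_const 12)).add ((h5.const_mul (s ^ 2)).div_const 160)

private theorem q_mono (s : ℝ) : Monotone (fun θ : ℝ => θ - s * θ ^ 3 / 12 + s ^ 2 * θ ^ 5 / 160) := by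
  refine monotone_of_deriv_nonneg (fun θ => (q_deriv s θ).differentiableAt) fun θ => ?_
  rw [(q_deriv s θ).deriv]
  nlinarith [sq_nonneg (s * θ ^ 2 / 4 - 1)]

theorem Kf_mono {s θ θ' : ℝ} (h : θ ≤ θ') : Kf s θ ≤ Kf s θ' := by
  unfold Kf
  refine mul_le_mul_of_nonneg_left (q_mono s h) ?_
  have := Real.pi_pos
  have := Real.exp_pos (-s)
  positivity

theorem Kf_nonneg {s θ : ℝ} (h : 0 ≤ θ) : 0 ≤ Kf s θ := by
  have h1 := Kf_mono (s := s) h
  have h2 : Kf s 0 = 0 := by simp [Kf]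
  rwa [h2] at h1

end Pool.Agent.H49.FS
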