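import Pool.Agent.H49.FS.PolarB
import Pool.Agent.H49.FS.KMono
import Pool.Agent.H49.FR.Pair

/-!
# Module EdgeB: the probability that an edge is cut, second bound

Copy `Pool/Agent/H49/FR/Edge.lean` (`edge_prob`) with `polar_boundB` instead of `polar_bound` (the level is `t` instead of `-t`); `arccos (S u v) ≤ π/2` because
`0 ≤ S u v` (`Real.arccos_le_pi_div_two`). `edge_le`: for an edge `ρ ≤ S u v` (`hS.adj`), `Real.antitone_arccos`, `Kf_mono`.
-/

set_option autoImplicit false

open Finset MeasureTheory ProbabilityTheory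

namespace Pool.Agent.H49.FS

open Pool.Agent.H49.FR

variable {V : Type} [Fintype V] [DecidableEq V]

theorem edge_probB {S : Matrix V V ℝ} (hS : S.PosSemidef) {u v : V} (hu : S u u = 1) (hv : S v v = 1)
    (h : |S u v| < 1) (h0 : 0 ≤ S u v) {t : ℝ} (ht : 0 ≤ t) :
    (multivariateGaussian 0 S).real {ω : EuclideanSpace ℝ V | t < ω u ∧ ω v ≤ t} ≤
      Kf (t ^ 2 / 2) (Real.arccos (S u v)) := by
  have hsym : S v u = S u v := by
    have h1 := hS.1.apply u v
    simpa using h1
  obtain ⟨hl, hr⟩ := abs_lt.mp h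
  have hlaw := law_pair hS hv hu (by rw [hsym]; exact h)
  rw [hsym] at hlaw
  set ρ := S u v with hρ
  have hcos : Real.cos (Real.arccos ρ) = ρ := Real.cos_arccos hl.le hr.le
  have hsin : Real.sin (Real.arccos ρ) = Real.sqrt (1 - ρ ^ 2) := Real.sin_arccos ρ
  have hpos : 0 < Real.sqrt (1 - ρ ^ 2) := by
    apply Real.sqrt_pos.mpr
    nlinarith
  set T : EuclideanSpace ℝ V → ℝ × ℝ := fun ω => (ω u, (ω v - ρ * ω u) / Real.sqrt (1 - ρ ^ 2)) with hT
  have hTm : Measurable T := by
    have h1 : Continuous T := by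
      rw [hT]
      fun_prop
    exact h1.measurable
  have hA : MeasurableSet {p : ℝ × ℝ | t < p.1 ∧
      Real.cos (Real.arccos ρ) * p.1 + Real.sin (Real.arccos ρ) * p.2 ≤ t} := by
    refine MeasurableSet.inter ?_ ?_
    · exact measurableSet_lt measurable_const measurable_fst
    · exact measurableSet_le ((measurable_const.mul measurable_fst).add
        (measurable_const.mul measurable_snd)) measurable_const
  have hb := polar_boundB (Real.arccos_nonneg ρ) (Real.arccos_le_pi_div_two.mpr h0) ht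
  rw [← hlaw, map_measureReal_apply hTm hA] at hb
  refine le_trans (le_of_eq ?_) hb
  congr 1
  ext ω
  have h2 : Real.cos (Real.arccos ρ) * (T ω).1 + Real.sin (Real.arccos ρ) * (T ω).2 = ω v := by
    rw [hcos, hsin, hT]
    field_simp
    ring
  simp only [Set.mem_preimage, Set.mem_ofPred_eq]
  rw [h2]

theorem edge_le (G : SimpleGraph V) [DecidableRel G.Adj] {ρ : ℝ} (hρ : 0 ≤ ρ) {r : ℕ} {S : Matrix V V ℝ}
    (hS : Cv G ρ r S) {u v : V} (huv : G.Adj u v) {t : ℝ} (ht : 0 ≤ t) :
    (multivariateGaussian 0 S).real {ω : EuclideanSpace ℝ V | t < ω u ∧ ω v ≤ t} ≤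
      Kf (t ^ 2 / 2) (Real.arccos ρ) := by
  have h1 : ρ ≤ S u v := hS.adj u v huv
  exact (edge_probB hS.psd (hS.diag u) (hS.diag v) (hS.lt u v (G.ne_of_adj huv)) (hρ.trans h1) ht).trans
    (Kf_mono (Real.antitone_arccos h1))

end Pool.Agent.H49.FS
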