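import Pool.Agent.H49.FS.Defs
import Pool.Agent.H49.FR.ExpA

/-!
# Module ExtA: expectation of the cut of `Q ∪ {X > t}`

`cut A = ∑_{u ∈ A} nin u Aᶜ` with `A = Ax Q t ω`, `v ∈ A ⟺ v ∈ Q ∨ t < ω v`: for every `ω`
`cut G (Ax Q t ω) = ∑_{u ∈ Q} ∑_{v ∈ N(u) \ Q} 1{ω v ≤ t} + ∑_{u ∈ Qᶜ} ∑_{v ∈ N(u) \ Q} 1{t < ω u ∧ ω v ≤ t}`; the sets are measurable, the integral of an indicator is the measure
(copy of `ea_cut`, `ea_int_ind`, `ea_integral_ind`, `exp_cut` in `Pool/Agent/H49/FR/ExpA.lean`; these are private there). `prob_gt`, `prob_le`: `law_eval` (`FR/Pair`), as in `prob_Sd`;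
`{ω | ω v ≤ t}` is the complement (`probReal_compl_eq_one_sub` or `measureReal_compl`).
-/

set_option autoImplicit false

open Finset MeasureTheory ProbabilityTheory

namespace Pool.Agent.H49.FS

open Pool.Agent.H49.FR

variable {V : Type} [Fintype V] [DecidableEq V] (G : SimpleGraph V) [DecidableRel G.Adj]

omit [DecidableEq V] in
private lemma xa_coord (v : V) : Measurable fun ω : EuclideanSpace ℝ V => ω v :=
  (EuclideanSpace.proj v : EuclideanSpace ℝ V →L[ℝ] ℝ).continuous.measurable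

private lemma xa_card (A : EuclideanSpace ℝ V → Finset V) :
    (fun ω : EuclideanSpace ℝ V => ((A ω).card : ℝ)) =
      fun ω => ∑ v, ({ω | v ∈ A ω} : Set (EuclideanSpace ℝ V)).indicator (fun _ => (1 : ℝ)) ω := by
  funext ω
  simp [Set.indicator_apply]

private lemma xa_int_ind (S : Matrix V V ℝ) {E : Set (EuclideanSpace ℝ V)} (hE : MeasurableSet E) :
    Integrable (E.indicator (fun _ => (1 : ℝ))) (multivariateGaussian 0 S) :=
  (integrable_const (1 : ℝ)).indicator hE

private lemma xa_integral_ind (S : Matrix V V ℝ) {E : Set (EuclideanSpace ℝ V)}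
    (hE : MeasurableSet E) :
    ∫ ω, E.indicator (fun _ => (1 : ℝ)) ω ∂(multivariateGaussian 0 S) =
      (multivariateGaussian 0 S).real E := by
  rw [integral_indicator hE]
  simp

omit [DecidableEq V] in
private lemma xa_meas_le (t : ℝ) (v : V) : MeasurableSet {ω : EuclideanSpace ℝ V | ω v ≤ t} :=
  measurableSet_le (xa_coord v) measurable_const

omit [DecidableEq V] in
private lemma xa_meas_gt (t : ℝ) (v : V) : MeasurableSet {ω : EuclideanSpace ℝ V | t < ω v} :=
  measurableSet_lt measurable_const (xa_coord v)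

omit [DecidableEq V] in
private lemma xa_meas_edge (t : ℝ) (u v : V) :
    MeasurableSet {ω : EuclideanSpace ℝ V | t < ω u ∧ ω v ≤ t} :=
  (xa_meas_gt t u).inter (xa_meas_le t v)

private lemma xa_cut (Q : Finset V) (t : ℝ) :
    (fun ω : EuclideanSpace ℝ V => (cut G (Ax Q t ω) : ℝ)) =
      fun ω => (∑ u ∈ Q, ∑ v ∈ G.neighborFinset u ∩ Qᶜ,
        ({ω : EuclideanSpace ℝ V | ω v ≤ t}).indicator (fun _ => (1 : ℝ)) ω) +
        ∑ u ∈ Qᶜ, ∑ v ∈ G.neighborFinset u ∩ Qᶜ,
        ({ω : EuclideanSpace ℝ V | t < ω u ∧ ω v ≤ t}).indicator (fun _ => (1 : ℝ)) ω := by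
  funext ω
  have hc : ∀ u : V, G.neighborFinset u ∩ (Ax Q t ω)ᶜ = (G.neighborFinset u ∩ Qᶜ).filter fun v => ω v ≤ t := by
    intro u
    ext v
    unfold Ax
    simp only [Finset.mem_inter, Finset.mem_compl, Finset.mem_union, Finset.mem_filter, Finset.mem_univ, true_and, not_or, not_lt]
    tauto
  have hn : ∀ u : V, (nin G u (Ax Q t ω)ᶜ : ℝ) = ∑ v ∈ G.neighborFinset u ∩ Qᶜ, if ω v ≤ t then (1 : ℝ) else 0 := by
    intro u
    unfold nin
    rw [hc u, Finset.card_filter]
    push_cast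
    rfl
  have h1 : (cut G (Ax Q t ω) : ℝ) =
      ∑ u, if u ∈ Ax Q t ω then (nin G u (Ax Q t ω)ᶜ : ℝ) else 0 := by
    unfold cut
    push_cast
    rw [← Finset.sum_filter]
    refine Finset.sum_congr ?_ fun _ _ => rfl
    ext u
    simp
  rw [h1, ← Finset.sum_add_sum_compl Q]
  congr 1
  · refine Finset.sum_congr rfl fun u hu => ?_
    have hu' : u ∈ Ax Q t ω := by
      unfold Ax
      exact Finset.mem_union_left _ hu
    rw [if_pos hu', hn u]
    refine Finset.sum_congr rfl fun v _ => ?_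
    simp [Set.indicator_apply]
  · refine Finset.sum_congr rfl fun u hu => ?_
    have hu1 : u ∉ Q := Finset.mem_compl.1 hu
    have hu' : u ∈ Ax Q t ω ↔ t < ω u := by
      unfold Ax
      simp [hu1]
    by_cases hω : t < ω u
    · rw [if_pos (hu'.2 hω), hn u]
      refine Finset.sum_congr rfl fun v _ => ?_
      simp [Set.indicator_apply, hω]
    · rw [if_neg (fun h => hω (hu'.1 h))]
      symm
      refine Finset.sum_eq_zero fun v _ => ?_
      simp [hω]

lemma measurableSet_Ax (Q : Finset V) (t : ℝ) (v : V) :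
    MeasurableSet {ω : EuclideanSpace ℝ V | v ∈ Ax Q t ω} := by
  by_cases hv : v ∈ Q
  · have h : {ω : EuclideanSpace ℝ V | v ∈ Ax Q t ω} = Set.univ := by
      ext ω
      simp [Ax, hv]
    rw [h]
    exact MeasurableSet.univ
  · have h : {ω : EuclideanSpace ℝ V | v ∈ Ax Q t ω} = {ω | t < ω v} := by
      ext ω
      simp [Ax, hv]
    rw [h]
    exact xa_meas_gt t v

lemma integrable_card_Ax (S : Matrix V V ℝ) (Q : Finset V) (t : ℝ) :
    Integrable (fun ω : EuclideanSpace ℝ V => ((Ax Q t ω).card : ℝ)) (multivariateGaussian 0 S) := by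
  rw [xa_card]
  exact integrable_finsetSum _ fun v _ => xa_int_ind S (measurableSet_Ax Q t v)

lemma integrable_cut_Ax (S : Matrix V V ℝ) (Q : Finset V) (t : ℝ) :
    Integrable (fun ω : EuclideanSpace ℝ V => (cut G (Ax Q t ω) : ℝ)) (multivariateGaussian 0 S) := by
  rw [xa_cut G Q t]
  exact (integrable_finsetSum _ fun u _ => integrable_finsetSum _ fun v _ =>
    xa_int_ind S (xa_meas_le t v)).add (integrable_finsetSum _ fun u _ => integrable_finsetSum _ fun v _ =>
    xa_int_ind S (xa_meas_edge t u v))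

lemma prob_gt {S : Matrix V V ℝ} (hS : S.PosSemidef) {v : V} (hd : S v v = 1) (t : ℝ) :
    (multivariateGaussian 0 S).real {ω : EuclideanSpace ℝ V | t < ω v} = Pt t := by
  unfold Pt
  rw [← law_eval hS hd, map_measureReal_apply (xa_coord v) measurableSet_Ioi]
  rfl

lemma prob_le {S : Matrix V V ℝ} (hS : S.PosSemidef) {v : V} (hd : S v v = 1) (t : ℝ) :
    (multivariateGaussian 0 S).real {ω : EuclideanSpace ℝ V | ω v ≤ t} = 1 - Pt t := by
  have h : {ω : EuclideanSpace ℝ V | ω v ≤ t} = {ω : EuclideanSpace ℝ V | t < ω v}ᶜ := by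
    ext ω
    simp
  rw [h, probReal_compl_eq_one_sub (xa_meas_gt t v), prob_gt hS hd]

lemma exp_cut_Ax (S : Matrix V V ℝ) (Q : Finset V) (t : ℝ) :
    ∫ ω, (cut G (Ax Q t ω) : ℝ) ∂(multivariateGaussian 0 S) =
      (∑ u ∈ Q, ∑ v ∈ G.neighborFinset u ∩ Qᶜ,
        (multivariateGaussian 0 S).real {ω : EuclideanSpace ℝ V | ω v ≤ t}) +
      ∑ u ∈ Qᶜ, ∑ v ∈ G.neighborFinset u ∩ Qᶜ,
        (multivariateGaussian 0 S).real {ω : EuclideanSpace ℝ V | t < ω u ∧ ω v ≤ t} := by
  have i1 : ∀ u : V, Integrable (fun ω : EuclideanSpace ℝ V => ∑ v ∈ G.neighborFinset u ∩ Qᶜ,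
        ({ω : EuclideanSpace ℝ V | ω v ≤ t}).indicator (fun _ => (1 : ℝ)) ω) (multivariateGaussian 0 S) := fun u =>
    integrable_finsetSum _ fun v _ => xa_int_ind S (xa_meas_le t v)
  have i2 : ∀ u : V, Integrable (fun ω : EuclideanSpace ℝ V => ∑ v ∈ G.neighborFinset u ∩ Qᶜ,
        ({ω : EuclideanSpace ℝ V | t < ω u ∧ ω v ≤ t}).indicator (fun _ => (1 : ℝ)) ω) (multivariateGaussian 0 S) := fun u =>
    integrable_finsetSum _ fun v _ => xa_int_ind S (xa_meas_edge t u v)
  rw [xa_cut G Q t, integral_add (integrable_finsetSum _ fun u _ => i1 u) (integrable_finsetSum _ fun u _ => i2 u),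
    integral_finsetSum _ fun u _ => i1 u, integral_finsetSum _ fun u _ => i2 u]
  congr 1
  · refine Finset.sum_congr rfl fun u _ => ?_
    rw [integral_finsetSum _ fun v _ => xa_int_ind S (xa_meas_le t v)]
    exact Finset.sum_congr rfl fun v _ => xa_integral_ind S (xa_meas_le t v)
  · refine Finset.sum_congr rfl fun u _ => ?_
    rw [integral_finsetSum _ fun v _ => xa_int_ind S (xa_meas_edge t u v)]
    exact Finset.sum_congr rfl fun v _ => xa_integral_ind S (xa_meas_edge t u v)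

end Pool.Agent.H49.FS
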