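import Pool.Agent.H49.FS.ExtA
import Pool.Agent.H49.FS.EdgeB
import Pool.Agent.H49.FS.CutC

/-!
# Module ExtB: bound for the expected cut

`exp_cut_Ax`; first sum: `prob_le` and `∑_{u ∈ Q} |N(u) ∩ Qᶜ| = cut Q`; second sum: `edge_le`, `∑_{u ∈ Qᶜ} |N(u) ∩ Qᶜ| = d |Qᶜ| - cut Q` (`cut_out`), `|Qᶜ| = n - |Q|`.
-/

set_option autoImplicit false

open Finset MeasureTheory ProbabilityTheory

namespace Pool.Agent.H49.FS

open Pool.Agent.H49.FR

variable {V : Type} [Fintype V] [DecidableEq V] (G : SimpleGraph V) [DecidableRel G.Adj]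

theorem ext_cut {d : ℕ} (hreg : G.IsRegularOfDegree d) {ρ : ℝ} (hρ : 0 ≤ ρ) {r : ℕ} {S : Matrix V V ℝ}
    (hS : Cv G ρ r S) (Q : Finset V) {t : ℝ} (ht : 0 ≤ t) :
    ∫ ω, (cut G (Ax Q t ω) : ℝ) ∂(multivariateGaussian 0 S) ≤
      (1 - Pt t) * cut G Q +
        Kf (t ^ 2 / 2) (Real.arccos ρ) * (d * ((Fintype.card V : ℝ) - Q.card) - cut G Q) := by
  rw [exp_cut_Ax]
  have h1 : (∑ u ∈ Q, ∑ v ∈ G.neighborFinset u ∩ Qᶜ,
      (multivariateGaussian 0 S).real {ω : EuclideanSpace ℝ V | ω v ≤ t}) =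
      (1 - Pt t) * cut G Q := by
    have e1 : ∀ u ∈ Q, (∑ v ∈ G.neighborFinset u ∩ Qᶜ,
        (multivariateGaussian 0 S).real {ω : EuclideanSpace ℝ V | ω v ≤ t}) =
        (nin G u Qᶜ : ℝ) * (1 - Pt t) := by
      intro u _
      rw [Finset.sum_congr rfl fun v _ => prob_le hS.psd (hS.diag v) t, Finset.sum_const,
        nsmul_eq_mul]
      rfl
    rw [Finset.sum_congr rfl e1, ← Finset.sum_mul]
    unfold cut
    push_cast
    ring
  have h2 : (∑ u ∈ Qᶜ, ∑ v ∈ G.neighborFinset u ∩ Qᶜ,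
      (multivariateGaussian 0 S).real {ω : EuclideanSpace ℝ V | t < ω u ∧ ω v ≤ t}) ≤
      ∑ u ∈ Qᶜ, (nin G u Qᶜ : ℝ) * Kf (t ^ 2 / 2) (Real.arccos ρ) := by
    refine Finset.sum_le_sum fun u _ => ?_
    have e2 : ∀ v ∈ G.neighborFinset u ∩ Qᶜ,
        (multivariateGaussian 0 S).real {ω : EuclideanSpace ℝ V | t < ω u ∧ ω v ≤ t} ≤
          Kf (t ^ 2 / 2) (Real.arccos ρ) := by
      intro v hv
      rw [Finset.mem_inter, SimpleGraph.mem_neighborFinset] at hv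
      exact edge_le G hρ hS hv.1 ht
    refine (Finset.sum_le_card_nsmul _ _ _ e2).trans (le_of_eq ?_)
    rw [nsmul_eq_mul]
    rfl
  have h3 : (∑ u ∈ Qᶜ, (nin G u Qᶜ : ℝ)) + cut G Q = d * ((Fintype.card V : ℝ) - Q.card) := by
    have e3 := cut_out G hreg Q
    have e4 : ((∑ u ∈ Qᶜ, nin G u Qᶜ : ℕ) : ℝ) + ((cut G Q : ℕ) : ℝ) =
        (d : ℝ) * ((Qᶜ).card : ℝ) := by
      exact_mod_cast e3
    rw [Finset.card_compl, Nat.cast_sub (Finset.card_le_univ Q)] at e4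
    push_cast at e4
    exact e4
  rw [h1]
  rw [← Finset.sum_mul] at h2
  have h4 : (∑ u ∈ Qᶜ, (nin G u Qᶜ : ℝ)) * Kf (t ^ 2 / 2) (Real.arccos ρ) =
      Kf (t ^ 2 / 2) (Real.arccos ρ) * (d * ((Fintype.card V : ℝ) - Q.card) - cut G Q) := by
    rw [← h3]
    ring
  linarith

end Pool.Agent.H49.FS
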