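import Pool.Agent.H49.FS.PhL

/-!
# Module PotB: a minimiser of the potential, `d = 2a + 1`, `b = a + 1`

As `PotA` with `N = n + 1`, `p = 3`, and the case distinction of `Pool/Agent/H49/FR/PotO.lean` (`n` is even, so `2k ≠ n + 1`).
* `m - 1 < k` and `k < n + 1 - m + 1` as in `PotA` (`ph_up`, `ph_down`).
* Let `m + 1 ≤ k`, `k + 1 ≤ n + 1 - m`. Case `2k ≤ n`: `v ∈ A` with `nin v A ≤ a - 1`: `nin v Aᶜ ≥ a + 2`, `cut (A.erase v) ≤ cut A - 3`, `ph_mid1`: `F` changes by
  `≤ -3 + L < 0`. `v ∉ A` with `nin v Aᶜ ≤ a`: `nin v A ≥ a + 1`, `cut (insert v A) ≤ cut A - 1`, `ph_mid2`: `F` changes by `≤ -1`. So `Part G a (a+1) A`.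
  Case `2k ≥ n + 2`: symmetric with `ph_mid3`: `Part G a (a+1) Aᶜ` (`compl_compl`).
-/

set_option autoImplicit false

open Finset

namespace Pool.Agent.H49.FS

open Pool.Agent.H49.FR

variable {V : Type} [Fintype V] [DecidableEq V] (G : SimpleGraph V) [DecidableRel G.Adj]

theorem potB {d a : ℕ} (hreg : G.IsRegularOfDegree d) (hd : d = 2 * a + 1) {L m : ℝ}
    (hL : 0 ≤ L) (hLp : L < 3) (hm0 : 0 < m) (hm : 2 * m ≤ Fintype.card V) (A : Finset V)
    (hA : ∀ B : Finset V, (cut G A : ℝ) - ph L (d + 1) (Fintype.card V + 1) m A.card ≤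
      (cut G B : ℝ) - ph L (d + 1) (Fintype.card V + 1) m B.card) :
    m - 1 < A.card ∧ (A.card : ℝ) < Fintype.card V + 1 - m + 1 ∧
      (m + 1 ≤ A.card → (A.card : ℝ) + 1 ≤ Fintype.card V + 1 - m →
        Part G a (a + 1) A ∨ Part G a (a + 1) Aᶜ) := by
  have hev : Even (Fintype.card V) := by
    have h1 := G.sum_degrees_eq_twice_card_edges
    have h2 : ∑ v : V, G.degree v = Fintype.card V * d := by
      rw [Finset.sum_congr rfl fun v _ => hreg v, Finset.sum_const, Finset.card_univ, smul_eq_mul]
    rw [h2, hd] at h1
    by_contra h3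
    rw [Nat.not_even_iff_odd] at h3
    have h4 : Odd (Fintype.card V * (2 * a + 1)) := h3.mul ⟨a, rfl⟩
    rw [h1] at h4
    exact (Nat.not_even_iff_odd.2 h4) (even_two_mul _)
  have hdR : (d : ℝ) = 2 * a + 1 := by rw [hd]; push_cast; ring
  have hdeg : ∀ v, nin G v A + nin G v Aᶜ = 2 * a + 1 := fun v => by
    rw [nin_add, hreg v, hd]
  have hers : ∀ v ∈ A, ((A.erase v).card : ℝ) = A.card - 1 := by
    intro v hv
    have h5 := Finset.card_erase_add_one hv
    have h6 : ((A.erase v).card : ℝ) + 1 = A.card := by exact_mod_cast h5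
    linarith
  have hins : ∀ v, v ∉ A → ((insert v A).card : ℝ) = A.card + 1 := by
    intro v hv
    rw [Finset.card_insert_of_notMem hv]
    push_cast
    ring
  have hkn : (A.card : ℝ) ≤ Fintype.card V := by exact_mod_cast Finset.card_le_univ A
  -- a move which loses `x` edges and lowers the size function by at most `y`
  have hno : ∀ (B : Finset V) (x y : ℝ), (cut G B : ℝ) + x ≤ cut G A →
      ph L (d + 1) (Fintype.card V + 1) m A.card - y ≤
        ph L (d + 1) (Fintype.card V + 1) m B.card → y < x → False := by
    intro B x y h1 h2 h4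
    have h5 := hA B
    linarith
  have hcutI : ∀ v, v ∉ A → ∀ x : ℕ, nin G v Aᶜ + x ≤ nin G v A →
      (cut G (insert v A) : ℝ) + x ≤ cut G A := by
    intro v hv x hx
    have h1 := cut_insert G A hv
    have h2 : cut G (insert v A) + x ≤ cut G A := by omega
    exact_mod_cast h2
  have hcutE : ∀ v ∈ A, ∀ x : ℕ, nin G v A + x ≤ nin G v Aᶜ →
      (cut G (A.erase v) : ℝ) + x ≤ cut G A := by
    intro v hv x hx
    have h1 := cut_erase G A hv
    have h2 : cut G (A.erase v) + x ≤ cut G A := by omega
    exact_mod_cast h2
  refine ⟨?_, ?_, ?_⟩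
  · by_contra hc
    push Not at hc
    have hlt : A.card < Fintype.card V := by
      have : (A.card : ℝ) < Fintype.card V := by linarith
      exact_mod_cast this
    obtain ⟨v, hv⟩ : ∃ v, v ∉ A := by
      by_contra h
      push Not at h
      have : A = univ := Finset.eq_univ_iff_forall.2 h
      rw [this, Finset.card_univ] at hlt
      exact lt_irrefl _ hlt
    have h1 := cut_insert G A hv
    have h2 := hdeg v
    have h3 : cut G (insert v A) ≤ cut G A + (2 * a + 1) := by omega
    have h4 : (cut G (insert v A) : ℝ) ≤ cut G A + (2 * a + 1) := by exact_mod_cast h3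
    have h5 := ph_up (L := L) (D := (d : ℝ) + 1) (N := (Fintype.card V : ℝ) + 1) (m := m)
      (x := (A.card : ℝ)) hL (by linarith) (by linarith)
    refine hno (insert v A) (-(2 * a + 1)) (-((d : ℝ) + 1)) (by linarith) ?_ (by linarith)
    rw [hins v hv]
    linarith
  · by_contra hc
    push Not at hc
    have hlt : 0 < A.card := by
      have : (0 : ℝ) < A.card := by linarith
      exact_mod_cast this
    obtain ⟨v, hv⟩ := Finset.card_pos.1 hlt
    have h1 := cut_erase G A hv
    have h2 := hdeg v
    have h3 : cut G (A.erase v) ≤ cut G A + (2 * a + 1) := by omega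
    have h4 : (cut G (A.erase v) : ℝ) ≤ cut G A + (2 * a + 1) := by exact_mod_cast h3
    have h5 := ph_down (L := L) (D := (d : ℝ) + 1) (N := (Fintype.card V : ℝ) + 1) (m := m)
      (x := (A.card : ℝ)) hL (by linarith) (by linarith)
    refine hno (A.erase v) (-(2 * a + 1)) (-((d : ℝ) + 1)) (by linarith) ?_ (by linarith)
    rw [hers v hv]
    linarith
  · intro hk1 hk2
    rcases Nat.lt_or_ge (Fintype.card V) (2 * A.card) with hk | hk
    · have hk4 : Fintype.card V + 2 ≤ 2 * A.card := by
        obtain ⟨t, ht⟩ := hev
        omega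
      have hk3 : (Fintype.card V : ℝ) + 2 ≤ 2 * A.card := by exact_mod_cast hk4
      right
      intro v
      constructor
      · intro hv
        have hv' : v ∉ A := Finset.mem_compl.1 hv
        by_contra hc
        push Not at hc
        have h2 := hdeg v
        have h3 := hcutI v hv' 3 (by omega)
        push_cast at h3
        refine hno (insert v A) 3 L h3 ?_ hLp
        rw [hins v hv']
        have h5 := ph_mid1 (L := L) (D := (d : ℝ) + 1) (N := (Fintype.card V : ℝ) + 1) (m := m)
          (x := (A.card : ℝ)) (y := (A.card : ℝ) + 1) hL (by linarith) (by linarith) (by linarith)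
          (by linarith) (by rw [abs_le]; constructor <;> linarith)
        linarith
      · intro hv
        have hv' : v ∈ A := by
          by_contra h
          exact hv (Finset.mem_compl.2 h)
        rw [compl_compl]
        by_contra hc
        push Not at hc
        have h2 := hdeg v
        have h3 := hcutE v hv' 1 (by omega)
        push_cast at h3
        refine hno (A.erase v) 1 0 h3 ?_ one_pos
        rw [hers v hv']
        have h5 := ph_mid3 (L := L) (D := (d : ℝ) + 1) (N := (Fintype.card V : ℝ) + 1) (m := m)
          (x := (A.card : ℝ)) hL (by linarith) (by linarith) (by linarith)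
        linarith
    · have hk3 : 2 * (A.card : ℝ) ≤ Fintype.card V := by exact_mod_cast hk
      left
      intro v
      constructor
      · intro hv
        by_contra hc
        push Not at hc
        have h2 := hdeg v
        have h3 := hcutE v hv 3 (by omega)
        push_cast at h3
        refine hno (A.erase v) 3 L h3 ?_ hLp
        rw [hers v hv]
        have h5 := ph_mid1 (L := L) (D := (d : ℝ) + 1) (N := (Fintype.card V : ℝ) + 1) (m := m)
          (x := (A.card : ℝ)) (y := (A.card : ℝ) - 1) hL (by linarith) (by linarith) (by linarith)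
          (by linarith) (by rw [abs_le]; constructor <;> linarith)
        linarith
      · intro hv
        by_contra hc
        push Not at hc
        have h2 := hdeg v
        have h3 := hcutI v hv 1 (by omega)
        push_cast at h3
        refine hno (insert v A) 1 0 h3 ?_ one_pos
        rw [hins v hv]
        have h5 := ph_mid2 (L := L) (D := (d : ℝ) + 1) (N := (Fintype.card V : ℝ) + 1) (m := m)
          (x := (A.card : ℝ)) hL (by linarith) (by linarith) (by linarith)
        linarith

end Pool.Agent.H49.FS
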