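import Pool.Agent.H49.FS.Core
import Pool.Agent.H49.FS.PotB
import Pool.Agent.H49.FR.PotO
import Pool.Agent.H49.FS.CutC

/-!
# Module MidB: the theorem for `d = 2a + 1`, `b = a + 1`

As `MidA` with `p = 3`, `potB`, `N = n + 1`. `L = 3 lam`, `g = 3 c`. Boundary cases: `m - 1 < |A| < m + 1` (`Q = A`) or `n + 1 - m - 1 < |A| < n + 1 - m + 1` (`Q = Aᶜ`,
`m - 2 < |Q| < m`), so `||Q| - m| ≤ 2`, `cut Q = cut A` (`cut_compl`). Interior case: `m + 1 ≤ |A|`, `|A| + 1 ≤ n + 1 - m`: `A` or `Aᶜ` is good, `|Aᶜ| = n - |A| ≥ m`.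
Lower bound for `cut Q`: `exists_odd` (`FR/PotO`) with `A₀ = Q` gives a partition with `3 lam min |Q| (n-|Q|) - cut Q ≤ 3 lam (|A|+1)` and the same for `Aᶜ`; if it is not good then
`3 lam min |Q| (n-|Q|) - cut Q ≤ 3 lam (c n + 1)`, so `cut Q ≥ L (m - 2) - 3 c n - 3 ≥ L m - g n - 9` (`lam ≤ 1`): `core` with `C = 9`. `ph |A| ≤ L min |A| (n+1-|A|) ≤ L (m+1)`,
`ph_ge` with `n ≤ N = n + 1`.
-/

set_option autoImplicit false

open Finset MeasureTheory ProbabilityTheory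

namespace Pool.Agent.H49.FS

open Pool.Agent.H49.FR

theorem midB {d a : ℕ} (hd : d = 2 * a + 1) (ha : 1 ≤ a) {ρ t c : ℝ}
    (hρ0 : 0 ≤ ρ) (hρ : ρ < 2 * Real.sqrt ((d : ℝ) - 1) / d) (ht : 0 ≤ t) (hP0 : 0 < Pt t)
    (hP1 : Pt t < 1 / 2) (hc : 0 < c) (hcm : c ≤ (1 - 2 * Pt t) / (2 * (1 - Pt t)))
    (h : d * Kf (t ^ 2 / 2) (Real.arccos ρ) <
      (3 * (1 - 2 * Pt t) - 2 * (1 - Pt t) * (3 * c)) * (Pt t + Kf (t ^ 2 / 2) (Real.arccos ρ)) + 3 * Pt t) :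
    ∃ n₀ : ℕ, ∀ (V : Type) [Fintype V] [DecidableEq V] (G : SimpleGraph V)
      [DecidableRel G.Adj], G.IsRegularOfDegree d → n₀ < Fintype.card V →
      ∃ A : Finset V, c * Fintype.card V ≤ A.card ∧ c * Fintype.card V ≤ (Aᶜ).card ∧
        Part G a (a + 1) A := by
  have hd2 : 2 ≤ d := by omega
  obtain ⟨K, hK⟩ : ∃ x : ℝ, x = Kf (t ^ 2 / 2) (Real.arccos ρ) := ⟨_, rfl⟩
  obtain ⟨P, hP⟩ : ∃ x : ℝ, x = Pt t := ⟨_, rfl⟩
  obtain ⟨S, hS⟩ : ∃ x : ℝ, x = 3 * (1 - 2 * P) * (P + K) + 3 * P := ⟨_, rfl⟩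
  obtain ⟨f, hf⟩ : ∃ x : ℝ, x = (3 * (1 - 2 * P) - 2 * (1 - P) * (3 * c)) * (P + K) + 3 * P - d * K :=
    ⟨_, rfl⟩
  have hf0 : 0 < f := by
    rw [hf, hP, hK]
    linarith
  obtain ⟨δ, hδ⟩ : ∃ x : ℝ, x = f / (2 * (|S| + f + 1)) := ⟨_, rfl⟩
  have hS0 : 0 ≤ |S| := abs_nonneg S
  have hδ0 : 0 < δ := by rw [hδ]; positivity
  have hδe : δ * (2 * (|S| + f + 1)) = f := by
    rw [hδ]
    exact div_mul_cancel₀ _ (by positivity)
  have hδ1 : δ < 1 := by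
    rw [hδ, div_lt_one (by positivity)]
    linarith
  have hδS : δ * S < f := by
    have h1 : δ * S ≤ δ * |S| := mul_le_mul_of_nonneg_left (le_abs_self S) hδ0.le
    have h2 : 0 < δ * f := by positivity
    nlinarith
  obtain ⟨lam, hlam⟩ : ∃ x : ℝ, x = 1 - δ := ⟨_, rfl⟩
  have hl0 : 0 < lam := by linarith
  have hl1 : lam < 1 := by linarith
  obtain ⟨L, hL⟩ : ∃ x : ℝ, x = 3 * lam := ⟨_, rfl⟩
  have hL0 : 0 < L := by linarith
  have hL3 : L < 3 := by linarith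
  have hcore : (d : ℝ) * Kf (t ^ 2 / 2) (Real.arccos ρ) <
      (L * (1 - 2 * Pt t) - 2 * (1 - Pt t) * (3 * c)) * (Pt t + Kf (t ^ 2 / 2) (Real.arccos ρ)) +
        L * Pt t := by
    rw [← hK, ← hP]
    have h1 : (L * (1 - 2 * P) - 2 * (1 - P) * (3 * c)) * (P + K) + L * P - d * K = f - δ * S := by
      rw [hL, hlam, hf, hS]
      ring
    linarith
  obtain ⟨n₁, hn₁⟩ := core (g := 3 * c) (C := 9) hd2 hρ0 hρ ht hP0 hP1 hL0.le (by norm_num) hcore
  refine ⟨n₁, ?_⟩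
  intro V _ _ G _ hreg hn
  by_contra hcon
  have hcore2 := hn₁ V G hreg hn
  obtain ⟨μ, hμ⟩ : ∃ x : ℝ, x = (1 - 2 * Pt t) / (2 * (1 - Pt t)) := ⟨_, rfl⟩
  rw [← hμ] at hcore2 hcm
  have hμ1 : 2 * μ ≤ 1 := by
    rw [hμ, ← mul_div_assoc, div_le_one (by linarith)]
    linarith
  have hμ0 : 0 < μ := lt_of_lt_of_le hc hcm
  obtain ⟨n, hn'⟩ : ∃ x : ℝ, x = (Fintype.card V : ℝ) := ⟨_, rfl⟩
  have hn0 : 0 < n := by
    have h1 : 0 < Fintype.card V := lt_of_le_of_lt (Nat.zero_le _) hn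
    rw [hn']
    exact_mod_cast h1
  obtain ⟨m, hm⟩ : ∃ x : ℝ, x = μ * n := ⟨_, rfl⟩
  have hm0 : 0 < m := by rw [hm]; positivity
  have hm2 : 2 * m ≤ n := by
    rw [hm]
    nlinarith
  have hcn : c * n ≤ m := by
    rw [hm]
    exact mul_le_mul_of_nonneg_right hcm hn0.le
  obtain ⟨A, -, hA⟩ := Finset.exists_min_image (Finset.univ : Finset (Finset V))
    (fun B => (cut G B : ℝ) - ph L (d + 1) (Fintype.card V + 1) m B.card) ⟨∅, Finset.mem_univ _⟩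
  obtain ⟨hA1, hA2, hA3⟩ := potB G hreg hd hL0.le hL3 hm0 (by rw [← hn']; exact hm2) A
    (fun B => hA B (Finset.mem_univ _))
  rw [← hn'] at hA2 hA3
  have hkn : A.card ≤ Fintype.card V := Finset.card_le_univ A
  have hcard : ((Aᶜ).card : ℝ) = n - A.card := by
    rw [Finset.card_compl, Nat.cast_sub hkn, ← hn']
  -- the lower bound for the cut
  have hlow : ∀ Q : Finset V, |(Q.card : ℝ) - m| ≤ 2 → L * m - 3 * c * n - 9 ≤ cut G Q := by
    intro Q hQ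
    obtain ⟨B, hB1, hB2, hB3⟩ := exists_odd G hreg hd hl0 hl1 Q
    rw [← hn', ← hL] at hB2 hB3
    have h1 : L * min (Q.card : ℝ) (n - Q.card) - cut G Q ≤ L * (c * n + 1) := by
      by_cases hc1 : c * n ≤ B.card
      · by_cases hc2 : c * n ≤ (Bᶜ).card
        · rw [hn'] at hc1 hc2
          exact absurd ⟨B, hc1, hc2, hB1⟩ hcon
        · push Not at hc2
          exact hB3.trans (mul_le_mul_of_nonneg_left (by linarith) hL0.le)
      · push Not at hc1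
        exact hB2.trans (mul_le_mul_of_nonneg_left (by linarith) hL0.le)
    have h2 := abs_le.1 hQ
    have h3 : m - 2 ≤ min (Q.card : ℝ) (n - Q.card) :=
      le_min (by linarith [h2.1]) (by linarith [h2.2])
    have h4 := mul_le_mul_of_nonneg_left h3 hL0.le
    have h5 : 0 < c * n := by positivity
    have h6 : L * (c * n) ≤ 3 * (c * n) := mul_le_mul_of_nonneg_right hL3.le h5.le
    nlinarith
  -- the contradiction for a boundary size
  have hfin : ∀ Q : Finset V, |(Q.card : ℝ) - m| ≤ 2 → cut G Q = cut G A →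
      min (A.card : ℝ) (n + 1 - A.card) ≤ m + 1 → False := by
    intro Q hQ hcut hmin
    have h1 := hlow Q hQ
    obtain ⟨A', hA'⟩ := hcore2 Q (by rw [← hn', ← hm]; exact hQ) (by rw [← hn', ← hm]; exact h1)
    rw [← hn', ← hm, hcut] at hA'
    have h2 := hA A' (Finset.mem_univ _)
    rw [← hn'] at h2
    have h3 : L * (n / 2) - (L + (d + 1)) * |(A'.card : ℝ) - n / 2| ≤
        ph L (d + 1) (n + 1) m (A'.card : ℝ) :=
      ph_ge hL0.le (by positivity) (by linarith) hm2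
    have h4 : ph L (d + 1) (n + 1) m (A.card : ℝ) ≤ L * min (A.card : ℝ) (n + 1 - A.card) :=
      ph_le (by positivity)
    have h5 := mul_le_mul_of_nonneg_left hmin hL0.le
    linarith
  by_cases hc1 : m + 1 ≤ A.card
  · by_cases hc2 : (A.card : ℝ) + 1 ≤ n + 1 - m
    · rcases hA3 hc1 hc2 with h1 | h1
      · exact hcon ⟨A, by rw [← hn']; linarith, by rw [← hn', hcard]; linarith, h1⟩
      · refine hcon ⟨Aᶜ, by rw [← hn', hcard]; linarith, ?_, h1⟩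
        rw [compl_compl, ← hn']
        linarith
    · push Not at hc2
      refine hfin Aᶜ ?_ (cut_compl G A) ?_
      · rw [hcard]
        exact abs_le.2 ⟨by linarith, by linarith⟩
      · exact (min_le_right _ _).trans (by linarith)
  · push Not at hc1
    refine hfin A ?_ rfl ?_
    · exact abs_le.2 ⟨by linarith, by linarith⟩
    · exact (min_le_left _ _).trans (by linarith)

end Pool.Agent.H49.FS
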