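import Pool.Agent.H49.FS.KMono
import Pool.Agent.H49.FR.Trig

/-!
# Module NumK: numerical criterion

* `kf_le`: `arccos ρ ≤ θ` by `arccos_le_of` (`FR/Trig`), `Kf_mono`, `exp(-s) ≤ 1 - s + s²/2 - s³/6 + s⁴/24` for `s ≥ 0` (prove it, e.g. by the sign of derivatives or from
  `Real.exp_bound`/repeated monotonicity as in `FR/Trig`), `π ≥ 3.14159` (`Real.pi_gt_d6` or `pi_gt_d20`), the polynomial in `θ` is `≥ 0` (`0 ≤ θ`: it is
  `θ (1 - y/3 + y²/10)`, `y = s θ²/4`, and `1 - y/3 + y²/10 > 0`).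
* `num_ok`: `G(P, K) = (p(1-2P) - 2(1-P) p c)(P+K) + p P - d K`. `G(P,K) - G(P₁,K) = (P-P₁) p (2 - 2(P+P₁) - 2K - 2c(1-(P+P₁)-K)) ≥ 0` for `P, P₁ ≤ 3/10`, `K ≤ 1/10`, `0 ≤ c ≤ 1/3`, and
  `G(P₁,K) - G(P₁,K₁) = (K₁-K)(d - p(1-2P₁) + 2(1-P₁) p c) ≥ 0` as `p ≤ d`.
-/

set_option autoImplicit false

namespace Pool.Agent.H49.FS

open Pool.Agent.H49.FR

private lemma numk_mono {f f' : ℝ → ℝ} (hf : ∀ x, HasDerivAt f (f' x) x) (h0 : f 0 = 0)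
    (h : ∀ x, 0 ≤ x → 0 ≤ f' x) : ∀ x, 0 ≤ x → 0 ≤ f x := by
  intro x hx
  have hm : MonotoneOn f (Set.Ici 0) := by
    refine monotoneOn_of_deriv_nonneg (convex_Ici 0) ?_ ?_ ?_
    · exact fun y _ => (hf y).continuousAt.continuousWithinAt
    · exact fun y _ => (hf y).differentiableAt.differentiableWithinAt
    · intro y hy
      rw [interior_Ici] at hy
      rw [(hf y).deriv]
      exact h y hy.le
  have := hm (Set.mem_Ici.2 le_rfl) (Set.mem_Ici.2 hx) hx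
  rwa [h0] at this

private lemma hasDerivAt_expneg (x : ℝ) : HasDerivAt (fun y : ℝ => Real.exp (-y)) (-Real.exp (-x)) x := by
  have h := (hasDerivAt_neg x).exp
  refine h.congr_deriv ?_
  ring

private lemma e1 : ∀ x : ℝ, 0 ≤ x → 0 ≤ Real.exp (-x) - 1 + x := by
  intro x _
  have := Real.add_one_le_exp (-x)
  linarith

private lemma e2 : ∀ x : ℝ, 0 ≤ x → 0 ≤ 1 - x + x ^ 2 / 2 - Real.exp (-x) := by
  refine numk_mono (f' := fun x => Real.exp (-x) - 1 + x) (fun x => ?_) (by simp) e1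
  have h := (((hasDerivAt_id' x).const_sub 1).add ((hasDerivAt_pow 2 x).div_const 2)).sub (hasDerivAt_expneg x)
  refine h.congr_deriv ?_
  norm_num
  ring

private lemma e3 : ∀ x : ℝ, 0 ≤ x → 0 ≤ Real.exp (-x) - (1 - x + x ^ 2 / 2 - x ^ 3 / 6) := by
  refine numk_mono (f' := fun x => 1 - x + x ^ 2 / 2 - Real.exp (-x)) (fun x => ?_) (by simp) e2
  have h := (hasDerivAt_expneg x).sub ((((hasDerivAt_id' x).const_sub 1).add
    ((hasDerivAt_pow 2 x).div_const 2)).sub ((hasDerivAt_pow 3 x).div_const 6))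
  refine h.congr_deriv ?_
  norm_num
  ring

private lemma e4 : ∀ x : ℝ, 0 ≤ x → 0 ≤ 1 - x + x ^ 2 / 2 - x ^ 3 / 6 + x ^ 4 / 24 - Real.exp (-x) := by
  refine numk_mono (f' := fun x => Real.exp (-x) - (1 - x + x ^ 2 / 2 - x ^ 3 / 6)) (fun x => ?_) (by simp) e3
  have h := (((((hasDerivAt_id' x).const_sub 1).add ((hasDerivAt_pow 2 x).div_const 2)).sub
    ((hasDerivAt_pow 3 x).div_const 6)).add ((hasDerivAt_pow 4 x).div_const 24)).sub (hasDerivAt_expneg x)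
  refine h.congr_deriv ?_
  norm_num
  ring

theorem kf_le {s ρ θ K₁ : ℝ} (hs : 0 ≤ s) (h0 : 0 ≤ θ) (h3 : θ ≤ 3)
    (h : 1 - θ ^ 2 / 2 + θ ^ 4 / 24 - θ ^ 6 / 720 + θ ^ 8 / 40320 ≤ ρ)
    (hK : (1 - s + s ^ 2 / 2 - s ^ 3 / 6 + s ^ 4 / 24) *
      (θ - s * θ ^ 3 / 12 + s ^ 2 * θ ^ 5 / 160) ≤ 2 * (314159 / 100000) * K₁) :
    Kf s (Real.arccos ρ) ≤ K₁ := by
  have ha : Real.arccos ρ ≤ θ := arccos_le_of h0 h3 h
  refine (Kf_mono (s := s) ha).trans ?_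
  unfold Kf
  have hQ : 0 ≤ θ - s * θ ^ 3 / 12 + s ^ 2 * θ ^ 5 / 160 := by
    have e : θ - s * θ ^ 3 / 12 + s ^ 2 * θ ^ 5 / 160 =
        θ * ((1 - s * θ ^ 2 / 24) ^ 2 + (s * θ ^ 2) ^ 2 * (1 / 160 - 1 / 576)) := by ring
    rw [e]
    positivity
  have hE : Real.exp (-s) ≤ 1 - s + s ^ 2 / 2 - s ^ 3 / 6 + s ^ 4 / 24 := by
    have := e4 s hs
    linarith
  have hpos := Real.exp_pos (-s)
  set Q := θ - s * θ ^ 3 / 12 + s ^ 2 * θ ^ 5 / 160 with hQd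
  have h1 : Real.exp (-s) * Q ≤ 2 * (314159 / 100000) * K₁ :=
    (mul_le_mul_of_nonneg_right hE hQ).trans hK
  have hK0 : 0 ≤ K₁ := by
    have : 0 ≤ Real.exp (-s) * Q := by positivity
    linarith
  have hpi : (314159 / 100000 : ℝ) ≤ Real.pi := by
    have := Real.pi_gt_d6
    linarith
  have h2 : Real.exp (-s) * Q ≤ 2 * Real.pi * K₁ := by
    refine h1.trans ?_
    have := mul_le_mul_of_nonneg_right hpi hK0
    linarith
  rw [div_mul_eq_mul_div, div_le_iff₀ (by positivity)]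
  linarith

theorem num_ok {p d c P P₁ K K₁ : ℝ} (hp : 0 < p) (hpd : p ≤ d) (hc : 0 ≤ c) (hc1 : c ≤ 1 / 3)
    (hP : P₁ ≤ P) (hP1 : 0 ≤ P₁) (hP2 : P ≤ 3 / 10) (hK0 : 0 ≤ K) (hK : K ≤ K₁) (hK1 : K₁ ≤ 1 / 10)
    (h : d * K₁ < (p * (1 - 2 * P₁) - 2 * (1 - P₁) * (p * c)) * (P₁ + K₁) + p * P₁) :
    d * K < (p * (1 - 2 * P) - 2 * (1 - P) * (p * c)) * (P + K) + p * P := by
  have a1 : 0 ≤ (P - P₁) * p * (2 - 2 * (P + P₁) - 2 * K - 2 * c * (1 - (P + P₁) - K)) := by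
    apply mul_nonneg (mul_nonneg (by linarith) hp.le)
    have hx : 0 ≤ 1 - (P + P₁) - K := by linarith
    have hc2 : 0 ≤ 1 - c := by linarith
    have := mul_nonneg hc2 hx
    nlinarith
  have a2 : 0 ≤ (K₁ - K) * (d - p * (1 - 2 * P₁) + 2 * (1 - P₁) * (p * c)) := by
    apply mul_nonneg (by linarith)
    have h1 : 0 ≤ p * P₁ := mul_nonneg hp.le hP1
    have h2 : 0 ≤ (1 - P₁) * (p * c) := mul_nonneg (by linarith) (mul_nonneg hp.le hc)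
    nlinarith
  have e : (p * (1 - 2 * P) - 2 * (1 - P) * (p * c)) * (P + K) + p * P - d * K -
      ((p * (1 - 2 * P₁) - 2 * (1 - P₁) * (p * c)) * (P₁ + K₁) + p * P₁ - d * K₁) =
      (P - P₁) * p * (2 - 2 * (P + P₁) - 2 * K - 2 * c * (1 - (P + P₁) - K)) +
      (K₁ - K) * (d - p * (1 - 2 * P₁) + 2 * (1 - P₁) * (p * c)) := by ring
  linarith

end Pool.Agent.H49.FS
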