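import Pool.Agent.H49.FS.NumT
import Pool.Agent.H49.FS.NumK

/-!
# Module NumU: the numerical conditions of the six cases

`cond_ok` collects `pt_lower`, `pt_half`, `pt_upper`, `kf_le`, `num_ok`. `pt_upper2` is the bound `Pt t ≤ 1/2 - 0.39894 (t - t³/6)`, `t ≥ 0`.
-/

set_option autoImplicit false

open MeasureTheory ProbabilityTheory

namespace Pool.Agent.H49.FS

open Pool.Agent.H49.FR

private lemma nu_inv_bd : (39894 / 100000 : ℝ) ≤ (Real.sqrt (2 * Real.pi))⁻¹ := by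
  obtain ⟨h1, h2⟩ := sqrt_two_pi
  have h0 : (0 : ℝ) < Real.sqrt (2 * Real.pi) := by linarith
  rw [le_inv_comm₀ (by norm_num) h0]
  refine h2.le.trans ?_
  norm_num

private lemma nu_ioc_eq (a b : ℝ) (h : a ≤ b) : (gaussianReal 0 1).real (Set.Ioc a b) =
    (Real.sqrt (2 * Real.pi))⁻¹ * ∫ x in a..b, Real.exp (-(x ^ 2 / 2)) := by
  rw [Measure.real, gaussianReal_apply_eq_integral 0 (by norm_num), ENNReal.toReal_ofReal]
  · rw [← intervalIntegral.integral_of_le h, ← intervalIntegral.integral_const_mul]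
    apply intervalIntegral.integral_congr
    intro x _
    simp only [gaussianPDFReal, NNReal.coe_one, mul_one, sub_zero]
    congr 2
    ring
  · exact integral_nonneg fun x => gaussianPDFReal_nonneg _ _ _

private lemma nu_ioi_split (a b : ℝ) (h : a ≤ b) : (gaussianReal 0 1).real (Set.Ioi a) =
    (gaussianReal 0 1).real (Set.Ioc a b) + (gaussianReal 0 1).real (Set.Ioi b) := by
  rw [← measureReal_union (by
    rw [Set.disjoint_left]
    intro x hx hx2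
    exact absurd hx.2 (not_le.2 hx2)) measurableSet_Ioi, Set.Ioc_union_Ioi_eq_Ioi h]

private lemma nu_int_lower {t : ℝ} (ht : 0 ≤ t) :
    t - t ^ 3 / 6 ≤ ∫ x in (0 : ℝ)..t, Real.exp (-(x ^ 2 / 2)) := by
  have h1 : ∫ x in (0 : ℝ)..t, (1 - x ^ 2 / 2 : ℝ) = t - t ^ 3 / 6 := by
    rw [intervalIntegral.integral_sub (by simp) (by
      apply Continuous.intervalIntegrable; fun_prop)]
    simp only [intervalIntegral.integral_const, smul_eq_mul, mul_one,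
      intervalIntegral.integral_div, integral_pow]
    norm_num
    ring
  rw [← h1]
  apply intervalIntegral.integral_mono_on ht
  · apply Continuous.intervalIntegrable; fun_prop
  · apply Continuous.intervalIntegrable; fun_prop
  · intro x _
    have := Real.add_one_le_exp (-(x ^ 2 / 2))
    linarith

theorem pt_upper2 {t : ℝ} (ht : 0 ≤ t) (ht3 : t ^ 3 / 6 ≤ t) :
    Pt t ≤ 1 / 2 - 39894 / 100000 * (t - t ^ 3 / 6) := by
  have h0 := nu_ioi_split 0 t ht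
  rw [gauss_half, nu_ioc_eq _ _ ht] at h0
  have h1 := nu_inv_bd
  have h3 := nu_int_lower ht
  have h4 := mul_le_mul h1 h3 (by linarith) (by linarith)
  rw [Pt]
  linarith

theorem cond_ok {d p : ℕ} {c ρ t θ P₁ K₁ : ℝ} (hp : 0 < p) (hpd : p ≤ d) (hc : 0 ≤ c) (hc1 : c ≤ 1 / 3)
    (ht : 3 / 5 ≤ t) (h0 : 0 ≤ θ) (h3 : θ ≤ 3)
    (hcos : 1 - θ ^ 2 / 2 + θ ^ 4 / 24 - θ ^ 6 / 720 + θ ^ 8 / 40320 ≤ ρ)
    (hP0 : 0 < P₁)
    (hP : P₁ ≤ 1 / 2 - 39895 / 100000 * (t - t ^ 3 / 6 + t ^ 5 / 40 - t ^ 7 / 336 + t ^ 9 / 3456))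
    (hK : (1 - t ^ 2 / 2 + (t ^ 2 / 2) ^ 2 / 2 - (t ^ 2 / 2) ^ 3 / 6 + (t ^ 2 / 2) ^ 4 / 24) *
      (θ - t ^ 2 / 2 * θ ^ 3 / 12 + (t ^ 2 / 2) ^ 2 * θ ^ 5 / 160) ≤ 2 * (314159 / 100000) * K₁)
    (hK1 : K₁ ≤ 1 / 10)
    (h : (d : ℝ) * K₁ < (p * (1 - 2 * P₁) - 2 * (1 - P₁) * (p * c)) * (P₁ + K₁) + p * P₁) :
    0 < Pt t ∧ Pt t < 1 / 2 ∧ Pt t ≤ 3 / 10 ∧
      (d : ℝ) * Kf (t ^ 2 / 2) (Real.arccos ρ) <
      (p * (1 - 2 * Pt t) - 2 * (1 - Pt t) * (p * c)) * (Pt t + Kf (t ^ 2 / 2) (Real.arccos ρ)) +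
        p * Pt t := by
  have ht0 : 0 < t := by linarith
  have a1 : P₁ ≤ Pt t := hP.trans (pt_lower ht0.le)
  have a2 := pt_upper ht
  have a3 := pt_half ht0
  have a4 : Kf (t ^ 2 / 2) (Real.arccos ρ) ≤ K₁ := kf_le (by positivity) h0 h3 hcos hK
  have a5 : 0 ≤ Kf (t ^ 2 / 2) (Real.arccos ρ) := Kf_nonneg (Real.arccos_nonneg ρ)
  refine ⟨by linarith, a3, a2, ?_⟩
  exact num_ok (by exact_mod_cast hp) (by exact_mod_cast hpd) hc hc1 a1 hP0.le a2 a5 a4 hK1 h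

end Pool.Agent.H49.FS
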