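import Pool.Agent.H49.FS.MidA
import Pool.Agent.H49.FS.MidB
import Pool.Agent.H49.FS.NumU
import Pool.Agent.H49.FR.NumW

/-!
# Module FinY: the final statement (helper49)

`midA`, `midB` with `(d, p, c, ρ, t, θ, P₁, K₁)`:
`(5, 1, 1/50, 0.7999, 0.63, 0.6437, 0.264342, 0.083436)`, `(6, 2, 1/4, 0.745, 0.72, 0.7303, 0.235757, 0.088671)`, `(7, 3, 1/3, 0.699, 0.81, 0.7969, 0.208963, 0.089803)`,
`(8, 2, 1/125, 0.6614, 0.85, 0.84815, 0.197655, 0.092070)`, `(9, 3, 1/6, 0.6285, 0.91, 0.8912, 0.181401, 0.091259)`, `(11, 3, 1/500, 0.57495, 0.99, 0.9583, 0.161072, 0.090079)`.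
-/

set_option autoImplicit false

open Finset MeasureTheory ProbabilityTheory

namespace Pool.Agent.H49.FS

open Pool.Agent.H49.FR

private lemma rho_of {d : ℕ} {ρ q : ℝ} (hd : 0 < d) (hq0 : 0 ≤ q) (h : q ^ 2 < (d : ℝ) - 1) (h2 : ρ * d ≤ 2 * q) :
    ρ < 2 * Real.sqrt ((d : ℝ) - 1) / d := by
  have hd' : (0 : ℝ) < d := by exact_mod_cast hd
  rw [lt_div_iff₀ hd']
  have h1 : q < Real.sqrt ((d : ℝ) - 1) := Real.lt_sqrt_of_sq_lt h
  linarith

private lemma mu_of {P c : ℝ} (hP : P ≤ 3 / 10) (hc : c ≤ 1 / 4) :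
    c ≤ (1 - 2 * P) / (2 * (1 - P)) := by
  rw [le_div_iff₀ (by linarith)]
  nlinarith

theorem final_y : ∃ n₀ : ℕ, ∀ (d a b : ℕ) (c : ℝ),
      (d = 5 ∧ a = 3 ∧ b = 3 ∧ c = 1 / 50) ∨ (d = 6 ∧ a = 3 ∧ b = 3 ∧ c = 1 / 4) ∨
        (d = 7 ∧ a = 3 ∧ b = 4 ∧ c = 1 / 3) ∨ (d = 8 ∧ a = 4 ∧ b = 4 ∧ c = 1 / 125) ∨
        (d = 9 ∧ a = 4 ∧ b = 5 ∧ c = 1 / 6) ∨ (d = 11 ∧ a = 5 ∧ b = 6 ∧ c = 1 / 500) →
      ∀ (V : Type) [Fintype V] [DecidableEq V] (G : SimpleGraph V) [DecidableRel G.Adj],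
      G.IsRegularOfDegree d → n₀ < Fintype.card V →
      ∃ A : Finset V, c * Fintype.card V ≤ A.card ∧ c * Fintype.card V ≤ (Aᶜ).card ∧
        ∀ v : V, (v ∈ A → a ≤ (G.neighborFinset v ∩ A).card) ∧
          (v ∉ A → b ≤ (G.neighborFinset v ∩ Aᶜ).card) := by
  obtain ⟨b5, c5, e5, f5⟩ := cond_ok (d := 5) (p := 1) (c := 1 / 50) (ρ := 7999 / 10000) (t := 63 / 100)
    (θ := 6437 / 10000) (P₁ := 264342 / 1000000) (K₁ := 83436 / 1000000)
    (by norm_num) (by norm_num) (by norm_num) (by norm_num) (by norm_num) (by norm_num) (by norm_num)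
    (by norm_num) (by norm_num) (by norm_num) (by norm_num) (by norm_num) (by norm_num)
  obtain ⟨b6, c6, e6, f6⟩ := cond_ok (d := 6) (p := 2) (c := 1 / 4) (ρ := 745 / 1000) (t := 72 / 100)
    (θ := 7303 / 10000) (P₁ := 235757 / 1000000) (K₁ := 88671 / 1000000)
    (by norm_num) (by norm_num) (by norm_num) (by norm_num) (by norm_num) (by norm_num) (by norm_num)
    (by norm_num) (by norm_num) (by norm_num) (by norm_num) (by norm_num) (by norm_num)
  obtain ⟨b7, c7, e7, f7⟩ := cond_ok (d := 7) (p := 3) (c := 1 / 3) (ρ := 699 / 1000) (t := 81 / 100)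
    (θ := 7969 / 10000) (P₁ := 208963 / 1000000) (K₁ := 89803 / 1000000)
    (by norm_num) (by norm_num) (by norm_num) (by norm_num) (by norm_num) (by norm_num) (by norm_num)
    (by norm_num) (by norm_num) (by norm_num) (by norm_num) (by norm_num) (by norm_num)
  obtain ⟨b8, c8, e8, f8⟩ := cond_ok (d := 8) (p := 2) (c := 1 / 125) (ρ := 6614 / 10000) (t := 85 / 100)
    (θ := 84815 / 100000) (P₁ := 197655 / 1000000) (K₁ := 92070 / 1000000)
    (by norm_num) (by norm_num) (by norm_num) (by norm_num) (by norm_num) (by norm_num) (by norm_num)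
    (by norm_num) (by norm_num) (by norm_num) (by norm_num) (by norm_num) (by norm_num)
  obtain ⟨b9, c9, e9, f9⟩ := cond_ok (d := 9) (p := 3) (c := 1 / 6) (ρ := 6285 / 10000) (t := 91 / 100)
    (θ := 8912 / 10000) (P₁ := 181401 / 1000000) (K₁ := 91259 / 1000000)
    (by norm_num) (by norm_num) (by norm_num) (by norm_num) (by norm_num) (by norm_num) (by norm_num)
    (by norm_num) (by norm_num) (by norm_num) (by norm_num) (by norm_num) (by norm_num)
  obtain ⟨b11, c11, e11, f11⟩ := cond_ok (d := 11) (p := 3) (c := 1 / 500) (ρ := 57495 / 100000)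
    (t := 99 / 100) (θ := 9583 / 10000) (P₁ := 161072 / 1000000) (K₁ := 90079 / 1000000)
    (by norm_num) (by norm_num) (by norm_num) (by norm_num) (by norm_num) (by norm_num) (by norm_num)
    (by norm_num) (by norm_num) (by norm_num) (by norm_num) (by norm_num) (by norm_num)
  have hmu7 : (1 / 3 : ℝ) ≤ (1 - 2 * Pt (81 / 100)) / (2 * (1 - Pt (81 / 100))) := by
    have h := pt_upper2 (t := 81 / 100) (by norm_num) (by norm_num)
    have h' : Pt (81 / 100) ≤ 1 / 4 := h.trans (by norm_num)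
    rw [le_div_iff₀ (by linarith)]
    linarith
  obtain ⟨n5, h5⟩ := midA (d := 5) (a := 3) (p := 1) (ρ := 7999 / 10000) (t := 63 / 100) (c := 1 / 50)
    (by norm_num) (by norm_num) (by norm_num) (by norm_num)
    (rho_of (q := 19999 / 10000) (by norm_num) (by norm_num) (by norm_num) (by norm_num))
    (by norm_num) b5 c5 (by norm_num) (mu_of e5 (by norm_num)) f5
  obtain ⟨n6, h6⟩ := midA (d := 6) (a := 3) (p := 2) (ρ := 745 / 1000) (t := 72 / 100) (c := 1 / 4)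
    (by norm_num) (by norm_num) (by norm_num) (by norm_num)
    (rho_of (q := 2236 / 1000) (by norm_num) (by norm_num) (by norm_num) (by norm_num))
    (by norm_num) b6 c6 (by norm_num) (mu_of e6 (by norm_num)) f6
  obtain ⟨n8, h8⟩ := midA (d := 8) (a := 4) (p := 2) (ρ := 6614 / 10000) (t := 85 / 100) (c := 1 / 125)
    (by norm_num) (by norm_num) (by norm_num) (by norm_num)
    (rho_of (q := 26457 / 10000) (by norm_num) (by norm_num) (by norm_num) (by norm_num))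
    (by norm_num) b8 c8 (by norm_num) (mu_of e8 (by norm_num)) f8
  obtain ⟨n7, h7⟩ := midB (d := 7) (a := 3) (ρ := 699 / 1000) (t := 81 / 100) (c := 1 / 3)
    (by norm_num) (by norm_num) (by norm_num)
    (rho_of (q := 24494 / 10000) (by norm_num) (by norm_num) (by norm_num) (by norm_num))
    (by norm_num) b7 c7 (by norm_num) hmu7 (by exact_mod_cast f7)
  obtain ⟨n9, h9⟩ := midB (d := 9) (a := 4) (ρ := 6285 / 10000) (t := 91 / 100) (c := 1 / 6)
    (by norm_num) (by norm_num) (by norm_num)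
    (rho_of (q := 28284 / 10000) (by norm_num) (by norm_num) (by norm_num) (by norm_num))
    (by norm_num) b9 c9 (by norm_num) (mu_of e9 (by norm_num)) (by exact_mod_cast f9)
  obtain ⟨n11, h11⟩ := midB (d := 11) (a := 5) (ρ := 57495 / 100000) (t := 99 / 100) (c := 1 / 500)
    (by norm_num) (by norm_num) (by norm_num)
    (rho_of (q := 316227 / 100000) (by norm_num) (by norm_num) (by norm_num) (by norm_num))
    (by norm_num) b11 c11 (by norm_num) (mu_of e11 (by norm_num)) (by exact_mod_cast f11)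
  refine ⟨n5 + n6 + n7 + n8 + n9 + n11, ?_⟩
  intro d a b c hd V _ _ G _ hreg hn
  rcases hd with ⟨rfl, rfl, rfl, rfl⟩ | ⟨rfl, rfl, rfl, rfl⟩ | ⟨rfl, rfl, rfl, rfl⟩ |
    ⟨rfl, rfl, rfl, rfl⟩ | ⟨rfl, rfl, rfl, rfl⟩ | ⟨rfl, rfl, rfl, rfl⟩
  · obtain ⟨A, hA1, hA2, hA⟩ := h5 V G hreg (by omega)
    exact ⟨A, hA1, hA2, fun v => hA v⟩
  · obtain ⟨A, hA1, hA2, hA⟩ := h6 V G hreg (by omega)
    exact ⟨A, hA1, hA2, fun v => hA v⟩
  · obtain ⟨A, hA1, hA2, hA⟩ := h7 V G hreg (by omega)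
    exact ⟨A, hA1, hA2, fun v => hA v⟩
  · obtain ⟨A, hA1, hA2, hA⟩ := h8 V G hreg (by omega)
    exact ⟨A, hA1, hA2, fun v => hA v⟩
  · obtain ⟨A, hA1, hA2, hA⟩ := h9 V G hreg (by omega)
    exact ⟨A, hA1, hA2, fun v => hA v⟩
  · obtain ⟨A, hA1, hA2, hA⟩ := h11 V G hreg (by omega)
    exact ⟨A, hA1, hA2, fun v => hA v⟩

end Pool.Agent.H49.FS
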