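import Pool.Agent.H49.FS.PhL

/-!
# Module PotA: a minimiser of the potential, `b = a`

`F B = cut B - ph L (d+1) n m |B|`, `A` a minimiser, `k = |A|`. `cut_erase`, `cut_insert` (`FR/Pot`), `card (insert v A) = k + 1`, `card (A.erase v) = k - 1`.
* `m - 1 < k`: otherwise `k + 1 ≤ m ≤ n/2`, so `k < n` and there is `v ∉ A`; `cut (insert v A) ≤ cut A + d` (`nin v Aᶜ ≤ d`), `ph_up`: `F` changes by at most `d - (d+1) < 0`.
* `k < n - m + 1`: otherwise `k > 0`, take `v ∈ A`, `ph_down`.
* if `m + 1 ≤ k` and `k + 1 ≤ n - m`: let `v ∈ A` with `nin v A ≤ a - 1`; `nin v Aᶜ = d - nin v A ≥ d - a + 1`, `cut (A.erase v) ≤ cut A - p` (`2a + p = d + 2`), `ph_mid1`: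
  `F` changes by at most `-p + L < 0`. In the same way for `v ∉ A` with `nin v Aᶜ ≤ a - 1` (`insert v A`).
-/

set_option autoImplicit false

open Finset

namespace Pool.Agent.H49.FS

open Pool.Agent.H49.FR

variable {V : Type} [Fintype V] [DecidableEq V] (G : SimpleGraph V) [DecidableRel G.Adj]

theorem potA {d a p : ℕ} (hreg : G.IsRegularOfDegree d) (hp : 2 * a + p = d + 2) {L m : ℝ}
    (hL : 0 ≤ L) (hLp : L < p) (hm0 : 0 < m) (hm : 2 * m ≤ Fintype.card V) (A : Finset V)
    (hA : ∀ B : Finset V, (cut G A : ℝ) - ph L (d + 1) (Fintype.card V) m A.card ≤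
      (cut G B : ℝ) - ph L (d + 1) (Fintype.card V) m B.card) :
    m - 1 < A.card ∧ (A.card : ℝ) < Fintype.card V - m + 1 ∧
      (m + 1 ≤ A.card → (A.card : ℝ) + 1 ≤ Fintype.card V - m → Part G a a A) := by
  set n : ℝ := (Fintype.card V : ℝ) with hn
  have hdeg : ∀ v, nin G v A + nin G v Aᶜ = d := fun v => by rw [nin_add, hreg v]
  have hins : ∀ v, v ∉ A → ((insert v A).card : ℝ) = A.card + 1 := by
    intro v hv
    rw [Finset.card_insert_of_notMem hv]
    push_cast
    ring
  have hers : ∀ v, v ∈ A → ((A.erase v).card : ℝ) = A.card - 1 := by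
    intro v hv
    have h5 := Finset.card_erase_add_one hv
    have h6 : ((A.erase v).card : ℝ) + 1 = A.card := by exact_mod_cast h5
    linarith
  have hm' : 2 * m ≤ n := hm
  refine ⟨?_, ?_, ?_⟩
  · by_contra h
    have h1 : (A.card : ℝ) + 1 ≤ m := by linarith [not_lt.1 h]
    obtain ⟨v, hv⟩ : ∃ v, v ∉ A := by
      by_contra hc
      push Not at hc
      have h2 : A = Finset.univ := Finset.eq_univ_iff_forall.2 hc
      have h3 : (A.card : ℝ) = n := by rw [h2, Finset.card_univ]
      have h4 : (0 : ℝ) ≤ A.card := Nat.cast_nonneg _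
      linarith
    have h2 := hA (insert v A)
    rw [hins v hv] at h2
    have h3 := cut_insert G A hv
    have h4 := hdeg v
    have h5 : cut G (insert v A) ≤ cut G A + d := by omega
    have h6 : (cut G (insert v A) : ℝ) ≤ cut G A + d := by exact_mod_cast h5
    have h7 := ph_up (D := (d : ℝ) + 1) hL h1 hm'
    linarith
  · by_contra h
    have h1 : n - m + 1 ≤ (A.card : ℝ) := not_lt.1 h
    obtain ⟨v, hv⟩ : ∃ v, v ∈ A := by
      by_contra hc
      push Not at hc
      have h2 : A = ∅ := Finset.eq_empty_iff_forall_notMem.2 hc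
      have h3 : (A.card : ℝ) = 0 := by rw [h2, Finset.card_empty, Nat.cast_zero]
      linarith
    have h2 := hA (A.erase v)
    rw [hers v hv] at h2
    have h3 := cut_erase G A hv
    have h4 := hdeg v
    have h5 : cut G (A.erase v) ≤ cut G A + d := by omega
    have h6 : (cut G (A.erase v) : ℝ) ≤ cut G A + d := by exact_mod_cast h5
    have h7 := ph_down (D := (d : ℝ) + 1) hL h1 hm'
    linarith
  · intro hk1 hk2 v
    constructor
    · intro hv
      by_contra hc
      push Not at hc
      have h2 := hA (A.erase v)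
      rw [hers v hv] at h2
      have h3 := cut_erase G A hv
      have h4 := hdeg v
      have h5 : cut G (A.erase v) + p ≤ cut G A := by omega
      have h6 : (cut G (A.erase v) : ℝ) + p ≤ cut G A := by exact_mod_cast h5
      have h7 := ph_mid1 (D := (d : ℝ) + 1) (N := n) (m := m) (x := (A.card : ℝ))
        (y := (A.card : ℝ) - 1) hL (by linarith) (by linarith) (by linarith) (by linarith)
        (by rw [show (A.card : ℝ) - (A.card - 1) = 1 by ring, abs_one])
      linarith
    · intro hv
      by_contra hc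
      push Not at hc
      have h2 := hA (insert v A)
      rw [hins v hv] at h2
      have h3 := cut_insert G A hv
      have h4 := hdeg v
      have h5 : cut G (insert v A) + p ≤ cut G A := by omega
      have h6 : (cut G (insert v A) : ℝ) + p ≤ cut G A := by exact_mod_cast h5
      have h7 := ph_mid1 (D := (d : ℝ) + 1) (N := n) (m := m) (x := (A.card : ℝ))
        (y := (A.card : ℝ) + 1) hL (by linarith) (by linarith) (by linarith) (by linarith)
        (by rw [show (A.card : ℝ) - (A.card + 1) = -1 by ring, abs_neg, abs_one])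
      linarith

end Pool.Agent.H49.FS
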