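import Pool.Agent.H49.FS.Core
import Pool.Agent.H49.FS.PotA

/-!
# Module MidA: the theorem for `b = a`

`P = Pt t`, `μ = (1-2P)/(2(1-P)) > 0`, `μ < 1/2`, `K = Kf ..`. Choose `lam < 1`, `0 ≤ lam`, with `d K < (L(1-2P) - 2(1-P) g)(P+K) + L P`, `L = lam p`, `g = p c` (the right side is
continuous in `lam`, strict inequality at `lam = 1`: e.g. `lam = 1 - ε`, the difference is `ε p ((1-2P)(P+K) + P) ≤ ε p · 3`). `core` with `C = 3 p` gives `n₁`; `n₀ = max n₁ (..)`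
such that `μ n ≥ 4`, `n/2 - μ n ≥ 4`. Let `n > n₀`, `m = μ n`, `A` a minimiser of `cut B - ph L (d+1) n m |B|` (`Finset.exists_min_image univ`). Suppose no good partition exists.
By `potA`: if `m + 1 ≤ |A|` and `|A| + 1 ≤ n - m` then `A` is good (`c ≤ μ`): contradiction. So `m - 1 < |A| < m + 1` (`Q = A`) or `n - m - 1 < |A| < n - m + 1` (`Q = Aᶜ`,
`|Aᶜ| = n - |A|`, `cut_compl`); `||Q| - m| ≤ 1`. `exists_part` (`FR/Pot`, `a = b`, `p = q`, `lam`, `gam = p c`, `A₀ = Q`), contrapositive: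
`cut Q ≥ lam min (p |Q|) (p (n-|Q|)) - p c n ≥ L (m - 1) - p c n` (as `|Q| ≤ n - |Q|`; its partition has `p c n < p |A|`, so it would be good). Now `core` gives `A'` with
`cut A' - L n/2 + (L+d+1)||A'| - n/2| < cut Q - L (m+1)`. But `cut A' - ph |A'| ≥ cut A - ph |A|` (minimality), `ph |A'| ≥ L n/2 - (L+d+1)||A'|-n/2|` (`ph_ge`),
`ph |A| ≤ L min |A| (n-|A|) ≤ L (m+1)` (`ph_le`): contradiction.
-/

set_option autoImplicit false

open Finset MeasureTheory ProbabilityTheory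

namespace Pool.Agent.H49.FS

open Pool.Agent.H49.FR

private theorem exists_lam (p P K c D : ℝ)
    (h : D < (p * (1 - 2 * P) - 2 * (1 - P) * (p * c)) * (P + K) + p * P) :
    ∃ lam : ℝ, 0 < lam ∧ lam < 1 ∧
      D < ((lam * p) * (1 - 2 * P) - 2 * (1 - P) * (p * c)) * (P + K) + (lam * p) * P := by
  have hcont : ContinuousAt
      (fun lam : ℝ => ((lam * p) * (1 - 2 * P) - 2 * (1 - P) * (p * c)) * (P + K) + (lam * p) * P) 1 := by
    fun_prop
  have h1 : D < ((1 * p) * (1 - 2 * P) - 2 * (1 - P) * (p * c)) * (P + K) + (1 * p) * P := by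
    rw [one_mul]
    exact h
  have h2 := (hcont.eventually (lt_mem_nhds h1)).filter_mono
    (nhdsWithin_le_nhds (s := Set.Iio (1 : ℝ)))
  have h3 : ∀ᶠ lam : ℝ in nhdsWithin 1 (Set.Iio 1), lam ∈ Set.Ioo (0 : ℝ) 1 :=
    Ioo_mem_nhdsLT one_pos
  obtain ⟨lam, h4, h5⟩ := (h2.and h3).exists
  exact ⟨lam, h5.1, h5.2, h4⟩

theorem midA {d a p : ℕ} (hd : 2 ≤ d) (hp : 2 * a + p = d + 2) (hp0 : 0 < p) {ρ t c : ℝ}
    (hρ0 : 0 ≤ ρ) (hρ : ρ < 2 * Real.sqrt ((d : ℝ) - 1) / d) (ht : 0 ≤ t) (hP0 : 0 < Pt t)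
    (hP1 : Pt t < 1 / 2) (hc : 0 < c) (hcm : c ≤ (1 - 2 * Pt t) / (2 * (1 - Pt t)))
    (h : d * Kf (t ^ 2 / 2) (Real.arccos ρ) <
      (p * (1 - 2 * Pt t) - 2 * (1 - Pt t) * (p * c)) * (Pt t + Kf (t ^ 2 / 2) (Real.arccos ρ)) + p * Pt t) :
    ∃ n₀ : ℕ, ∀ (V : Type) [Fintype V] [DecidableEq V] (G : SimpleGraph V)
      [DecidableRel G.Adj], G.IsRegularOfDegree d → n₀ < Fintype.card V →
      ∃ A : Finset V, c * Fintype.card V ≤ A.card ∧ c * Fintype.card V ≤ (Aᶜ).card ∧ Part G a a A := by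
  have hpr : (0 : ℝ) < p := by exact_mod_cast hp0
  obtain ⟨lam, hl0, hl1, hlam⟩ := exists_lam (p : ℝ) (Pt t) (Kf (t ^ 2 / 2) (Real.arccos ρ)) c _ h
  have hL0 : 0 ≤ lam * p := by positivity
  have hLp : lam * p < p := by nlinarith
  obtain ⟨n₁, hn₁⟩ := core (C := 3 * (p : ℝ)) hd hρ0 hρ ht hP0 hP1 hL0 (by positivity) hlam
  refine ⟨n₁, fun V _ _ G _ hreg hn => ?_⟩
  by_contra hno
  have hno' : ∀ A : Finset V, c * Fintype.card V ≤ A.card → c * Fintype.card V ≤ (Aᶜ).card →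
      ¬ Part G a a A := fun A h1 h2 h3 => hno ⟨A, h1, h2, h3⟩
  have hn0 : (0 : ℝ) < Fintype.card V := by
    have : 0 < Fintype.card V := by omega
    exact_mod_cast this
  specialize hn₁ V G hreg hn
  set n : ℝ := (Fintype.card V : ℝ) with hndef
  set μ : ℝ := (1 - 2 * Pt t) / (2 * (1 - Pt t)) with hμ
  have hμ0 : 0 < μ := by
    rw [hμ]
    apply div_pos <;> linarith
  have hμ1 : 2 * μ ≤ 1 := by
    rw [hμ, mul_div_assoc', div_le_one (by linarith)]
    linarith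
  set m : ℝ := μ * n with hm
  have hm0 : 0 < m := by positivity
  have hm2 : 2 * m ≤ n := by
    rw [hm]
    nlinarith
  have hcn : c * n ≤ m := by
    rw [hm]
    exact mul_le_mul_of_nonneg_right hcm hn0.le
  have hcard : ∀ B : Finset V, ((Bᶜ).card : ℝ) = n - B.card := by
    intro B
    rw [Finset.card_compl, Nat.cast_sub (Finset.card_le_univ B)]
  obtain ⟨A, -, hA⟩ := Finset.exists_min_image (Finset.univ : Finset (Finset V))
    (fun B => (cut G B : ℝ) - ph (lam * p) ((d : ℝ) + 1) n m B.card) ⟨∅, Finset.mem_univ _⟩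
  have hA' : ∀ B : Finset V, (cut G A : ℝ) - ph (lam * p) ((d : ℝ) + 1) n m A.card ≤
      (cut G B : ℝ) - ph (lam * p) ((d : ℝ) + 1) n m B.card := fun B => hA B (Finset.mem_univ _)
  obtain ⟨hA1, hA2, hA3⟩ := potA G hreg hp hL0 hLp hm0 hm2 A hA'
  have hD : (0 : ℝ) ≤ (d : ℝ) + 1 := by positivity
  -- the set `Q`
  obtain ⟨Q, hQ1, hQ2, hQ3, hQ4⟩ : ∃ Q : Finset V, m - 1 < Q.card ∧ (Q.card : ℝ) < m + 1 ∧
      cut G Q = cut G A ∧ ph (lam * p) ((d : ℝ) + 1) n m A.card ≤ lam * p * Q.card := by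
    have hph := ph_le (L := lam * p) (N := n) (m := m) (x := (A.card : ℝ)) hD
    by_cases h1 : (A.card : ℝ) < m + 1
    · exact ⟨A, hA1, h1, rfl, hph.trans (mul_le_mul_of_nonneg_left (min_le_left _ _) hL0)⟩
    · push Not at h1
      refine ⟨Aᶜ, ?_, ?_, cut_compl G A, ?_⟩
      · rw [hcard]
        linarith
      · rw [hcard]
        by_contra h2
        push Not at h2
        exact hno' A (by linarith) (by rw [hcard]; linarith) (hA3 h1 (by linarith))
      · rw [hcard]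
        exact hph.trans (mul_le_mul_of_nonneg_left (min_le_right _ _) hL0)
  -- lower bound for the cut
  have hcutQ : lam * min ((p : ℝ) * (Q.card : ℝ)) (p * (n - Q.card)) - p * c * n ≤ cut G Q := by
    by_contra hcon
    push Not at hcon
    obtain ⟨B, hB1, hB2, hB3⟩ := exists_part G hreg hp hp hp0 hp0 hl0.le hl1
      (show (0 : ℝ) ≤ p * c by positivity) Q hcon
    refine hno' B ?_ ?_ hB3
    · have : (p : ℝ) * (c * n) < p * B.card := by
        rw [← mul_assoc]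
        exact hB1
      exact (lt_of_mul_lt_mul_left this hpr.le).le
    · have : (p : ℝ) * (c * n) < p * (Bᶜ).card := by
        rw [← mul_assoc]
        exact hB2
      exact (lt_of_mul_lt_mul_left this hpr.le).le
  have hmin : (p : ℝ) * (m - 1) ≤ min ((p : ℝ) * (Q.card : ℝ)) (p * (n - Q.card)) := by
    refine le_min ?_ ?_
    · exact mul_le_mul_of_nonneg_left hQ1.le hpr.le
    · exact mul_le_mul_of_nonneg_left (by linarith) hpr.le
  have hlow : lam * p * m - p * c * n - 3 * p ≤ cut G Q := by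
    have h1 : lam * ((p : ℝ) * (m - 1)) ≤ lam * min ((p : ℝ) * (Q.card : ℝ)) (p * (n - Q.card)) :=
      mul_le_mul_of_nonneg_left hmin hl0.le
    nlinarith
  obtain ⟨A', hA'1⟩ := hn₁ Q (by rw [abs_le]; constructor <;> linarith) hlow
  have h2 := hA' A'
  have h3 := ph_ge (L := lam * p) (D := (d : ℝ) + 1) (N := n) (n := n) (m := m) (x := (A'.card : ℝ))
    hL0 hD le_rfl hm2
  have h4 : lam * p * (Q.card : ℝ) ≤ lam * p * (m + 1) := mul_le_mul_of_nonneg_left hQ2.le hL0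
  have h5 : (cut G Q : ℝ) = cut G A := by exact_mod_cast hQ3
  linarith

end Pool.Agent.H49.FS
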