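import Pool.Agent.H49.FS.Defs
import Pool.Agent.H49.FR.NumG

/-!
# Module NumT: lower and upper bounds for Gaussian tails

`Pt t = γ(Ioi t) = 1/2 - γ(Ioc 0 t)` (`gauss_half`, `FR/NumG`; `ioi_split`, `ioc_eq`, `inv_bd` are private there, copy them), `(√(2π))⁻¹ ≤ 0.39895`,
`exp(-y) ≤ 1 - y + y²/2 - y³/6 + y⁴/24` for `y ≥ 0`, so for `t ≥ 0`
`∫_0^t exp(-x²/2) ≤ t - t³/6 + t⁵/40 - t⁷/336 + t⁹/3456`. `pt_lower` is this inequality. `pt_half`: `γ(Ioc 0 t) > 0` for `t > 0` (e.g. `≥ 0.398 (t - t³/6)` or positivity of the measure of an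
interval); only needed: `Pt t < 1/2` for `t > 0`. True values: `Pt 0.63 = 0.264347`, `Pt 0.72 = 0.235762`, `Pt 0.81 = 0.208970`, `Pt 0.85 = 0.197663`, `Pt 0.91 = 0.181411`,
`Pt 0.99 = 0.161087`. `pt_upper`: crude, `Pt t ≤ 3/10` for `t ≥ 3/5`: monotone, `Pt (3/5) = 0.274253`, `γ(Ioc 0 (3/5)) ≥ 0.39894 (0.6 - 0.036) = 0.225`.
-/

set_option autoImplicit false

open MeasureTheory ProbabilityTheory

namespace Pool.Agent.H49.FS

open Pool.Agent.H49.FR

private lemma inv_bd : (39894 / 100000 : ℝ) ≤ (Real.sqrt (2 * Real.pi))⁻¹ ∧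
    (Real.sqrt (2 * Real.pi))⁻¹ ≤ 39895 / 100000 := by
  obtain ⟨h1, h2⟩ := sqrt_two_pi
  have h0 : (0 : ℝ) < Real.sqrt (2 * Real.pi) := by linarith
  refine ⟨?_, ?_⟩
  · rw [le_inv_comm₀ (by norm_num) h0]
    refine h2.le.trans ?_
    norm_num
  · rw [inv_le_comm₀ h0 (by norm_num)]
    refine le_trans ?_ h1.le
    norm_num

private lemma ioc_eq (a b : ℝ) (h : a ≤ b) : (gaussianReal 0 1).real (Set.Ioc a b) =
    (Real.sqrt (2 * Real.pi))⁻¹ * ∫ x in a..b, Real.exp (-(x ^ 2 / 2)) := by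
  rw [Measure.real, gaussianReal_apply_eq_integral 0 (by norm_num), ENNReal.toReal_ofReal]
  · rw [← intervalIntegral.integral_of_le h, ← intervalIntegral.integral_const_mul]
    apply intervalIntegral.integral_congr
    intro x _
    simp only [gaussianPDFReal, NNReal.coe_one, mul_one, sub_zero]
    congr 2
    ring
  · exact integral_nonneg fun x => gaussianPDFReal_nonneg _ _ _

private lemma ioi_split (a b : ℝ) (h : a ≤ b) : (gaussianReal 0 1).real (Set.Ioi a) =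
    (gaussianReal 0 1).real (Set.Ioc a b) + (gaussianReal 0 1).real (Set.Ioi b) := by
  rw [← measureReal_union (by
    rw [Set.disjoint_left]
    intro x hx hx2
    exact absurd hx.2 (not_le.2 hx2)) measurableSet_Ioi, Set.Ioc_union_Ioi_eq_Ioi h]

private lemma pt_eq {t : ℝ} (ht : 0 ≤ t) :
    Pt t = 1 / 2 - (Real.sqrt (2 * Real.pi))⁻¹ * ∫ x in (0 : ℝ)..t, Real.exp (-(x ^ 2 / 2)) := by
  have h0 := ioi_split 0 t ht
  rw [gauss_half, ioc_eq _ _ ht] at h0
  rw [Pt]
  linarith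

private lemma exp_neg_le {y : ℝ} (hy : 0 ≤ y) :
    Real.exp (-y) ≤ 1 - y + y ^ 2 / 2 - y ^ 3 / 6 + y ^ 4 / 24 := by
  have h1 : 1 + y + y ^ 2 / 2 + y ^ 3 / 6 + y ^ 4 / 24 ≤ Real.exp y := by
    have := Real.sum_le_exp_of_nonneg hy 5
    simp only [Finset.sum_range_succ, Finset.sum_range_zero, Nat.factorial] at this
    norm_num at this
    linarith
  have h2 : 0 < 1 + y + y ^ 2 / 2 + y ^ 3 / 6 + y ^ 4 / 24 := by positivity
  rw [Real.exp_neg]
  refine (inv_anti₀ h2 h1).trans ?_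
  rw [inv_le_iff_one_le_mul₀ h2]
  have e : (1 - y + y ^ 2 / 2 - y ^ 3 / 6 + y ^ 4 / 24) *
      (1 + y + y ^ 2 / 2 + y ^ 3 / 6 + y ^ 4 / 24) = 1 + y ^ 6 / 72 + y ^ 8 / 576 := by ring
  rw [e]
  have h3 : 0 ≤ y ^ 6 / 72 := by positivity
  have h4 : 0 ≤ y ^ 8 / 576 := by positivity
  linarith

private lemma int_upper {t : ℝ} (ht : 0 ≤ t) :
    ∫ x in (0 : ℝ)..t, Real.exp (-(x ^ 2 / 2)) ≤
      t - t ^ 3 / 6 + t ^ 5 / 40 - t ^ 7 / 336 + t ^ 9 / 3456 := by
  have h1 : ∫ x in (0 : ℝ)..t, (1 - x ^ 2 / 2 + x ^ 4 / 8 - x ^ 6 / 48 + x ^ 8 / 384 : ℝ) =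
      t - t ^ 3 / 6 + t ^ 5 / 40 - t ^ 7 / 336 + t ^ 9 / 3456 := by
    rw [intervalIntegral.integral_add (by apply Continuous.intervalIntegrable; fun_prop)
      (by apply Continuous.intervalIntegrable; fun_prop),
      intervalIntegral.integral_sub (by apply Continuous.intervalIntegrable; fun_prop)
      (by apply Continuous.intervalIntegrable; fun_prop),
      intervalIntegral.integral_add (by apply Continuous.intervalIntegrable; fun_prop)
      (by apply Continuous.intervalIntegrable; fun_prop),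
      intervalIntegral.integral_sub (by simp) (by
      apply Continuous.intervalIntegrable; fun_prop)]
    simp only [intervalIntegral.integral_const, smul_eq_mul, mul_one,
      intervalIntegral.integral_div, integral_pow]
    norm_num
    ring
  rw [← h1]
  apply intervalIntegral.integral_mono_on ht
  · apply Continuous.intervalIntegrable; fun_prop
  · apply Continuous.intervalIntegrable; fun_prop
  · intro x _
    have := exp_neg_le (y := x ^ 2 / 2) (by positivity)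
    have e : 1 - x ^ 2 / 2 + (x ^ 2 / 2) ^ 2 / 2 - (x ^ 2 / 2) ^ 3 / 6 + (x ^ 2 / 2) ^ 4 / 24 =
      1 - x ^ 2 / 2 + x ^ 4 / 8 - x ^ 6 / 48 + x ^ 8 / 384 := by ring
    linarith

private lemma int_lower {t : ℝ} (ht : 0 ≤ t) :
    t - t ^ 3 / 6 ≤ ∫ x in (0 : ℝ)..t, Real.exp (-(x ^ 2 / 2)) := by
  have h1 : ∫ x in (0 : ℝ)..t, (1 - x ^ 2 / 2 : ℝ) = t - t ^ 3 / 6 := by
    rw [intervalIntegral.integral_sub (by simp) (by
      apply Continuous.intervalIntegrable; fun_prop)]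
    simp only [intervalIntegral.integral_const, smul_eq_mul, mul_one,
      intervalIntegral.integral_div, integral_pow]
    norm_num
    ring
  rw [← h1]
  apply intervalIntegral.integral_mono_on ht
  · apply Continuous.intervalIntegrable; fun_prop
  · apply Continuous.intervalIntegrable; fun_prop
  · intro x _
    have := Real.add_one_le_exp (-(x ^ 2 / 2))
    linarith

theorem pt_lower {t : ℝ} (ht : 0 ≤ t) :
    1 / 2 - 39895 / 100000 * (t - t ^ 3 / 6 + t ^ 5 / 40 - t ^ 7 / 336 + t ^ 9 / 3456) ≤ Pt t := by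
  rw [pt_eq ht]
  obtain ⟨h1, h2⟩ := inv_bd
  have h3 := int_upper ht
  have h4 : 0 ≤ ∫ x in (0 : ℝ)..t, Real.exp (-(x ^ 2 / 2)) :=
    intervalIntegral.integral_nonneg ht fun x _ => (Real.exp_pos _).le
  have h5 := mul_le_mul h2 h3 h4 (by norm_num)
  linarith

theorem pt_half {t : ℝ} (ht : 0 < t) : Pt t < 1 / 2 := by
  rw [pt_eq ht.le]
  obtain ⟨h1, h2⟩ := inv_bd
  have h3 : 0 < ∫ x in (0 : ℝ)..t, Real.exp (-(x ^ 2 / 2)) := by
    apply intervalIntegral.intervalIntegral_pos_of_pos_on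
    · apply Continuous.intervalIntegrable; fun_prop
    · intro x _
      exact Real.exp_pos _
    · exact ht
  have h4 : 0 < (Real.sqrt (2 * Real.pi))⁻¹ := by linarith
  have := mul_pos h4 h3
  linarith

theorem pt_upper {t : ℝ} (ht : 3 / 5 ≤ t) : Pt t ≤ 3 / 10 := by
  have h0 : Pt t ≤ Pt (3 / 5) := by
    rw [Pt, Pt]
    exact measureReal_mono (Set.Ioi_subset_Ioi ht)
  refine h0.trans ?_
  rw [pt_eq (by norm_num)]
  obtain ⟨h1, h2⟩ := inv_bd
  have h3 := int_lower (t := 3 / 5) (by norm_num)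
  have h4 := mul_le_mul h1 h3 (by norm_num) (by linarith)
  norm_num at h4 ⊢
  linarith

end Pool.Agent.H49.FS
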