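import Pool.Agent.H49.FS.Defs

/-!
# Module PhL: the size function

Elementary (`min`, `max`, linear arithmetic, case distinctions).
* `ph_le`: the second term is `≤ 0`.
* `ph_ge`: `min x (N-x) ≥ n/2 - |x - n/2|` (`N ≥ n`); `max 0 (m-x) + max 0 (x-(N-m)) ≤ |x - n/2|` (at most one of the two is positive as `m ≤ n/2 ≤ N - m`).
* `ph_up` (`x + 1 ≤ m ≤ N/2`): the minimum grows by one, the penalty drops by one. `ph_down` symmetric.
* `ph_mid1`: on `[m, N-m]` the penalty is zero and the minimum has slope at most one. `ph_mid2`, `ph_mid3` (for the odd case).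
-/

set_option autoImplicit false

namespace Pool.Agent.H49.FS

variable {L D N n m x : ℝ}

theorem ph_le (hD : 0 ≤ D) : ph L D N m x ≤ L * min x (N - x) := by
  unfold ph
  have h1 : 0 ≤ D * (max 0 (m - x) + max 0 (x - (N - m))) :=
    mul_nonneg hD (add_nonneg (le_max_left _ _) (le_max_left _ _))
  linarith

theorem ph_ge (hL : 0 ≤ L) (hD : 0 ≤ D) (hN : n ≤ N) (hm : 2 * m ≤ n) :
    L * (n / 2) - (L + D) * |x - n / 2| ≤ ph L D N m x := by
  unfold ph
  have h1 : n / 2 - |x - n / 2| ≤ min x (N - x) := by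
    refine le_min ?_ ?_
    · have := neg_abs_le (x - n / 2); linarith
    · have := le_abs_self (x - n / 2); linarith
  have h2 : max 0 (m - x) + max 0 (x - (N - m)) ≤ |x - n / 2| := by
    have h3 := neg_abs_le (x - n / 2)
    have h4 := le_abs_self (x - n / 2)
    have h5 := abs_nonneg (x - n / 2)
    rcases le_total 0 (m - x) with h | h
    · rw [max_eq_right h]
      rcases le_total 0 (x - (N - m)) with h' | h'
      · rw [max_eq_right h']; linarith
      · rw [max_eq_left h']; linarith
    · rw [max_eq_left h]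
      rcases le_total 0 (x - (N - m)) with h' | h'
      · rw [max_eq_right h']; linarith
      · rw [max_eq_left h']; linarith
  have h3 := mul_le_mul_of_nonneg_left h1 hL
  have h4 := mul_le_mul_of_nonneg_left h2 hD
  nlinarith

theorem ph_up (hL : 0 ≤ L) (h : x + 1 ≤ m) (hm : 2 * m ≤ N) :
    ph L D N m x + D ≤ ph L D N m (x + 1) := by
  unfold ph
  rw [min_eq_left (show x ≤ N - x by linarith), min_eq_left (show x + 1 ≤ N - (x + 1) by linarith),
    max_eq_right (show 0 ≤ m - x by linarith), max_eq_right (show 0 ≤ m - (x + 1) by linarith),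
    max_eq_left (show x - (N - m) ≤ 0 by linarith),
    max_eq_left (show x + 1 - (N - m) ≤ 0 by linarith)]
  nlinarith

theorem ph_down (hL : 0 ≤ L) (h : N - m + 1 ≤ x) (hm : 2 * m ≤ N) :
    ph L D N m x + D ≤ ph L D N m (x - 1) := by
  unfold ph
  rw [min_eq_right (show N - x ≤ x by linarith),
    min_eq_right (show N - (x - 1) ≤ x - 1 by linarith),
    max_eq_left (show m - x ≤ 0 by linarith), max_eq_left (show m - (x - 1) ≤ 0 by linarith),
    max_eq_right (show 0 ≤ x - (N - m) by linarith),
    max_eq_right (show 0 ≤ x - 1 - (N - m) by linarith)]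
  nlinarith

theorem ph_mid1 (hL : 0 ≤ L) {y : ℝ} (h1 : m ≤ x) (h2 : x ≤ N - m) (h3 : m ≤ y) (h4 : y ≤ N - m)
    (h5 : |x - y| ≤ 1) : ph L D N m x ≤ ph L D N m y + L := by
  obtain ⟨h6, h7⟩ := abs_le.mp h5
  unfold ph
  rw [max_eq_left (show m - x ≤ 0 by linarith), max_eq_left (show m - y ≤ 0 by linarith),
    max_eq_left (show x - (N - m) ≤ 0 by linarith),
    max_eq_left (show y - (N - m) ≤ 0 by linarith)]
  have h8 : min x (N - x) ≤ min y (N - y) + 1 := by
    rw [← sub_le_iff_le_add]
    refine le_min ?_ ?_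
    · have := min_le_left x (N - x); linarith
    · have := min_le_right x (N - x); linarith
  have h9 := mul_le_mul_of_nonneg_left h8 hL
  linarith

/-- moving right from the left half of `[0, N-1]` does not decrease `ph` -/
theorem ph_mid2 (hL : 0 ≤ L) (h1 : m ≤ x) (h2 : x + 1 ≤ N - m) (h : 2 * x + 1 ≤ N) :
    ph L D N m x ≤ ph L D N m (x + 1) := by
  unfold ph
  rw [max_eq_left (show m - x ≤ 0 by linarith), max_eq_left (show m - (x + 1) ≤ 0 by linarith),
    max_eq_left (show x - (N - m) ≤ 0 by linarith),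
    max_eq_left (show x + 1 - (N - m) ≤ 0 by linarith)]
  have h8 : min x (N - x) ≤ min (x + 1) (N - (x + 1)) := by
    refine le_min ?_ ?_
    · have := min_le_left x (N - x); linarith
    · have := min_le_left x (N - x); linarith
  have h9 := mul_le_mul_of_nonneg_left h8 hL
  linarith

theorem ph_mid3 (hL : 0 ≤ L) (h1 : m ≤ x - 1) (h2 : x ≤ N - m) (h : N + 1 ≤ 2 * x) :
    ph L D N m x ≤ ph L D N m (x - 1) := by
  unfold ph
  rw [max_eq_left (show m - x ≤ 0 by linarith), max_eq_left (show m - (x - 1) ≤ 0 by linarith),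
    max_eq_left (show x - (N - m) ≤ 0 by linarith),
    max_eq_left (show x - 1 - (N - m) ≤ 0 by linarith)]
  have h8 : min x (N - x) ≤ min (x - 1) (N - (x - 1)) := by
    refine le_min ?_ ?_
    · have := min_le_right x (N - x); linarith
    · have := min_le_right x (N - x); linarith
  have h9 := mul_le_mul_of_nonneg_left h8 hL
  linarith

end Pool.Agent.H49.FS
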