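import Pool.Agent.H49.FS.Defs

/-!
# Module PolarB: the probability that a level separates two coordinates, second bound

Modify `Pool/Agent/H49/FR/Polar.lean` (`polar_bound`; there the level is `-t`, here it is `t ≥ 0`; copy the private lemmas you need). In polar coordinates the
measure is `∫_{r>0} (1/(2π)) r exp(-r²/2) |M_r| dr`, `M_r = {φ ∈ (-π, π) : t < r cos φ, r cos (φ - θ) ≤ t}`, `0 ≤ θ ≤ π/2`.
* `r ≤ t`: `M_r = ∅`. `r > t`: `c = t/r ∈ [0, 1)`, `β = arccos c ∈ (0, π/2]`: `M_r ⊆ (-β, β) ∩ (-β, θ - β]` (`FR/Polar`, `ang_vol`), so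
  `|M_r| ≤ min θ (2β) = |{φ ∈ (0, θ) : t < r cos (φ/2)}|` (`cos (φ/2) > c ⟺ φ/2 < β`).
* so the measure is `≤ ∫_{r>0} ∫_{φ ∈ (0,θ)} 1{t < r cos (φ/2)} (1/(2π)) r exp(-r²/2)`; exchange the integrals (`lintegral_lintegral_swap`), `cos (φ/2) > 0`, the integral
  over `r > t/cos (φ/2)` is `exp(-t²/(2 cos²(φ/2)))` (`rad_int`).
* `1/cos² x = 1 + tan² x ≥ 1 + x²` (`|x| ≤ |tan x|` on `(-π/2, π/2)`: `Real.le_tan`), `exp(-z) ≤ 1 - z + z²/2` for `z ≥ 0`: with `s = t²/2`, `x = φ/2` the integrand is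
  `≤ exp(-s) (1 - s φ²/4 + s² φ⁴/32)`, positive, and its integral over `(0, θ)` is `exp(-s)(θ - s θ³/12 + s² θ⁵/160)`.
* `Kf_mono`: the derivative in `θ` of the polynomial is `1 - y + y²/2 ≥ 1/2 > 0`, `y = s θ²/4` (`monotoneOn_of_deriv_nonneg`), or directly:
  for `x ≤ y`: `p(y) - p(x) = (y - x)(1 - s(x²+xy+y²)/12 + s²(x⁴+x³y+x²y²+xy³+y⁴)/160)`.
-/

set_option autoImplicit false

open Finset MeasureTheory ProbabilityTheory

namespace Pool.Agent.H49.FS

open Pool.Agent.H49.FR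

private lemma ang_volB {θ t r : ℝ} (h0 : 0 ≤ θ) (h1 : θ ≤ Real.pi / 2) (ht : 0 ≤ t) (hr : 0 < r) :
    volume {φ : ℝ | φ ∈ Set.Ioo (-Real.pi) Real.pi ∧ t < r * Real.cos φ ∧
      r * Real.cos (φ - θ) ≤ t} ≤
    volume {φ : ℝ | φ ∈ Set.Ioo 0 θ ∧ t < r * Real.cos (φ / 2)} := by
  have hπ := Real.pi_pos
  by_cases h : t < r
  · set c : ℝ := t / r with hc
    have hc0 : 0 ≤ c := by rw [hc]; positivity
    have hc1 : -1 ≤ c := by linarith
    have hc2 : c ≤ 1 := by rw [hc, div_le_iff₀ hr]; linarith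
    have hcr : r * c = t := by rw [hc]; field_simp
    set β := Real.arccos c with hβ
    have hcos : Real.cos β = c := Real.cos_arccos hc1 hc2
    have hβ0 : 0 ≤ β := Real.arccos_nonneg c
    have hβ2 : β ≤ Real.pi / 2 := Real.arccos_le_pi_div_two.2 hc0
    have hβ1 : β ≤ Real.pi := by linarith
    have hsub : {φ : ℝ | φ ∈ Set.Ioo (-Real.pi) Real.pi ∧ t < r * Real.cos φ ∧
        r * Real.cos (φ - θ) ≤ t} ⊆ Set.Icc (-β) (min (θ - β) β) := by
      rintro φ ⟨⟨hp1, hp2⟩, h3, h4⟩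
      have h5 : c < Real.cos φ := by
        rw [← hcr] at h3
        exact lt_of_mul_lt_mul_left h3 hr.le
      have h6 : Real.cos (φ - θ) ≤ c := by
        rw [← hcr] at h4
        exact le_of_mul_le_mul_left h4 hr
      have h7 : |φ| < β := by
        by_contra hcon
        push Not at hcon
        have h8 : |φ| ≤ Real.pi := abs_le.2 ⟨hp1.le, hp2.le⟩
        have h9 := Real.cos_le_cos_of_nonneg_of_le_pi hβ0 h8 hcon
        rw [Real.cos_abs, hcos] at h9
        linarith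
      obtain ⟨h8, h9⟩ := abs_lt.1 h7
      refine ⟨h8.le, le_min ?_ h9.le⟩
      by_contra hcon
      push Not at hcon
      have h10 : |φ - θ| < β := abs_lt.2 ⟨by linarith, by linarith⟩
      have h11 := Real.cos_lt_cos_of_nonneg_of_le_pi (abs_nonneg (φ - θ)) hβ1 h10
      rw [Real.cos_abs, hcos] at h11
      linarith
    have hsub2 : Set.Ioo 0 (min θ (2 * β)) ⊆ {φ : ℝ | φ ∈ Set.Ioo 0 θ ∧ t < r * Real.cos (φ / 2)} := by
      rintro φ ⟨h3, h4⟩
      have h5 := (lt_min_iff.1 h4).1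
      have h6 := (lt_min_iff.1 h4).2
      refine ⟨⟨h3, h5⟩, ?_⟩
      have h7 := Real.cos_lt_cos_of_nonneg_of_le_pi (by linarith : 0 ≤ φ / 2) hβ1 (by linarith : φ / 2 < β)
      rw [hcos] at h7
      calc t = r * c := hcr.symm
        _ < r * Real.cos (φ / 2) := mul_lt_mul_of_pos_left h7 hr
    refine (measure_mono hsub).trans (le_trans ?_ (measure_mono hsub2))
    rw [Real.volume_Icc, Real.volume_Ioo]
    refine ENNReal.ofReal_le_ofReal ?_
    rcases le_total θ (2 * β) with h8 | h8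
    · rw [min_eq_left h8]
      have := min_le_left (θ - β) β
      linarith
    · rw [min_eq_right h8]
      have := min_le_right (θ - β) β
      linarith
  · have hemp : {φ : ℝ | φ ∈ Set.Ioo (-Real.pi) Real.pi ∧ t < r * Real.cos φ ∧
        r * Real.cos (φ - θ) ≤ t} = ∅ := by
      ext φ
      simp only [Set.mem_ofPred_eq, Set.mem_empty_iff_false, iff_false]
      rintro ⟨_, h3, _⟩
      have h5 : r * Real.cos φ ≤ r * 1 := mul_le_mul_of_nonneg_left (Real.cos_le_one φ) hr.le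
      push Not at h
      linarith
    rw [hemp, measure_empty]
    exact zero_le

private lemma rad_intB (a : ℝ) (ha : 0 ≤ a) :
    ∫⁻ r in Set.Ioi a, ENNReal.ofReal (r * Real.exp (-r ^ 2 / 2)) =
      ENNReal.ofReal (Real.exp (-a ^ 2 / 2)) := by
  have hd : ∀ x ∈ Set.Ici a, HasDerivAt (fun r : ℝ => -Real.exp (-r ^ 2 / 2))
      (x * Real.exp (-x ^ 2 / 2)) x := by
    intro x _
    have h1 : HasDerivAt (fun r : ℝ => -r ^ 2 / 2) (-(2 * x) / 2) x := by
      have h2 := ((hasDerivAt_pow 2 x).neg.div_const 2)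
      refine h2.congr_deriv ?_
      norm_num
    refine h1.exp.neg.congr_deriv ?_
    ring
  have hlim : Filter.Tendsto (fun r : ℝ => -Real.exp (-r ^ 2 / 2)) Filter.atTop (nhds 0) := by
    have h1 : Filter.Tendsto (fun r : ℝ => r ^ 2 / 2) Filter.atTop Filter.atTop :=
      (Filter.tendsto_pow_atTop (by norm_num)).atTop_div_const (by norm_num)
    have h2 := Real.tendsto_exp_neg_atTop_nhds_zero.comp h1
    have h3 := h2.neg
    rw [neg_zero] at h3
    refine h3.congr fun r => ?_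
    simp only [Function.comp]
    congr 2
    ring
  have hpos : ∀ x ∈ Set.Ioi a, 0 ≤ x * Real.exp (-x ^ 2 / 2) := by
    intro x hx
    have hx' : a < x := hx
    exact mul_nonneg (by linarith) (Real.exp_pos _).le
  have hint : IntegrableOn (fun x : ℝ => x * Real.exp (-x ^ 2 / 2)) (Set.Ioi a) :=
    integrableOn_Ioi_deriv_of_nonneg' hd hpos hlim
  have hval : ∫ x in Set.Ioi a, x * Real.exp (-x ^ 2 / 2) = Real.exp (-a ^ 2 / 2) := by
    rw [integral_Ioi_of_hasDerivAt_of_tendsto' hd hint hlim]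
    ring
  rw [← ofReal_integral_eq_lintegral_ofReal hint
    ((ae_restrict_iff' measurableSet_Ioi).2 (Filter.Eventually.of_forall hpos)), hval]

private lemma exp_neg_quad {z : ℝ} (hz : 0 ≤ z) : Real.exp (-z) ≤ 1 - z + z ^ 2 / 2 := by
  have h1 := Real.quadratic_le_exp_of_nonneg hz
  have h2 : (0 : ℝ) < 1 + z + z ^ 2 / 2 := by positivity
  rw [Real.exp_neg]
  have h3 : (Real.exp z)⁻¹ ≤ (1 + z + z ^ 2 / 2)⁻¹ := inv_anti₀ h2 h1
  refine h3.trans ?_
  rw [inv_le_iff_one_le_mul₀ h2]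
  nlinarith [sq_nonneg (z ^ 2)]

private lemma ptw {t φ : ℝ} (h0 : 0 < φ) (h1 : φ < Real.pi / 2) :
    Real.exp (-(t / Real.cos (φ / 2)) ^ 2 / 2) ≤
      Real.exp (-(t ^ 2 / 2)) * (1 - (t ^ 2 / 2) * φ ^ 2 / 4 + (t ^ 2 / 2) ^ 2 * φ ^ 4 / 32) := by
  have hπ := Real.pi_pos
  set x := φ / 2 with hx
  have hx0 : 0 ≤ x := by rw [hx]; linarith
  have hx1 : x < Real.pi / 2 := by rw [hx]; linarith
  have hc : 0 < Real.cos x := Real.cos_pos_of_mem_Ioo ⟨by linarith, hx1⟩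
  have h2 := Real.le_tan hx0 hx1
  have h3 : (1 + Real.tan x ^ 2)⁻¹ = Real.cos x ^ 2 := Real.inv_one_add_tan_sq hc.ne'
  have h4 : 1 + x ^ 2 ≤ (Real.cos x ^ 2)⁻¹ := by
    rw [← h3, inv_inv]
    have : x ^ 2 ≤ Real.tan x ^ 2 := pow_le_pow_left₀ hx0 h2 2
    linarith
  have h5 : -(t / Real.cos x) ^ 2 / 2 ≤ -(t ^ 2 / 2) + -((t ^ 2 / 2) * x ^ 2) := by
    have e1 : (t / Real.cos x) ^ 2 = t ^ 2 * (Real.cos x ^ 2)⁻¹ := by
      rw [div_pow, div_eq_mul_inv]
    rw [e1]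
    have h6 := mul_le_mul_of_nonneg_left h4 (sq_nonneg t)
    linarith
  have h7 : 0 ≤ (t ^ 2 / 2) * x ^ 2 := by positivity
  calc Real.exp (-(t / Real.cos x) ^ 2 / 2) ≤ Real.exp (-(t ^ 2 / 2) + -((t ^ 2 / 2) * x ^ 2)) :=
        Real.exp_le_exp.2 h5
    _ = Real.exp (-(t ^ 2 / 2)) * Real.exp (-((t ^ 2 / 2) * x ^ 2)) := Real.exp_add _ _
    _ ≤ Real.exp (-(t ^ 2 / 2)) * (1 - (t ^ 2 / 2) * x ^ 2 + ((t ^ 2 / 2) * x ^ 2) ^ 2 / 2) :=
        mul_le_mul_of_nonneg_left (exp_neg_quad h7) (Real.exp_pos _).le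
    _ = _ := by
        rw [hx]
        ring

private lemma poly_int {s θ : ℝ} (h0 : 0 ≤ θ) :
    ∫⁻ φ in Set.Ioo 0 θ, ENNReal.ofReal (Real.exp (-s) * (1 - s * φ ^ 2 / 4 + s ^ 2 * φ ^ 4 / 32)) =
      ENNReal.ofReal (Real.exp (-s) * (θ - s * θ ^ 3 / 12 + s ^ 2 * θ ^ 5 / 160)) := by
  have hcont : Continuous fun φ : ℝ => Real.exp (-s) * (1 - s * φ ^ 2 / 4 + s ^ 2 * φ ^ 4 / 32) := by
    fun_prop
  have hint : IntegrableOn (fun φ : ℝ => Real.exp (-s) * (1 - s * φ ^ 2 / 4 + s ^ 2 * φ ^ 4 / 32)) (Set.Ioo 0 θ) :=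
    (hcont.continuousOn.integrableOn_Icc).mono_set Set.Ioo_subset_Icc_self
  have hpos : ∀ φ : ℝ, 0 ≤ Real.exp (-s) * (1 - s * φ ^ 2 / 4 + s ^ 2 * φ ^ 4 / 32) := by
    intro φ
    refine mul_nonneg (Real.exp_pos _).le ?_
    nlinarith [sq_nonneg (s * φ ^ 2 / 4 - 1)]
  rw [← ofReal_integral_eq_lintegral_ofReal hint (Filter.Eventually.of_forall hpos)]
  congr 1
  rw [← integral_Ioc_eq_integral_Ioo, ← intervalIntegral.integral_of_le h0]
  have hd : ∀ x ∈ Set.uIcc 0 θ, HasDerivAt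
      (fun φ : ℝ => Real.exp (-s) * (φ - s * φ ^ 3 / 12 + s ^ 2 * φ ^ 5 / 160))
      (Real.exp (-s) * (1 - s * x ^ 2 / 4 + s ^ 2 * x ^ 4 / 32)) x := by
    intro x _
    have h3 : HasDerivAt (fun φ : ℝ => s * φ ^ 3 / 12) (s * (3 * x ^ 2) / 12) x := by
      have := ((hasDerivAt_pow 3 x).const_mul s).div_const 12
      refine this.congr_deriv ?_
      norm_num
    have h5 : HasDerivAt (fun φ : ℝ => s ^ 2 * φ ^ 5 / 160) (s ^ 2 * (5 * x ^ 4) / 160) x := by
      have := ((hasDerivAt_pow 5 x).const_mul (s ^ 2)).div_const 160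
      refine this.congr_deriv ?_
      norm_num
    have := (((hasDerivAt_id x).sub h3).add h5).const_mul (Real.exp (-s))
    refine this.congr_deriv ?_
    ring
  rw [intervalIntegral.integral_eq_sub_of_hasDerivAt hd (hcont.intervalIntegrable _ _)]
  ring

theorem polar_boundB {θ t : ℝ} (h0 : 0 ≤ θ) (h1 : θ ≤ Real.pi / 2) (ht : 0 ≤ t) :
    ((gaussianReal 0 1).prod (gaussianReal 0 1)).real
        {p : ℝ × ℝ | t < p.1 ∧ Real.cos θ * p.1 + Real.sin θ * p.2 ≤ t} ≤ Kf (t ^ 2 / 2) θ := by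
  have hπ := Real.pi_pos
  set S : Set (ℝ × ℝ) := {p : ℝ × ℝ | t < p.1 ∧ Real.cos θ * p.1 + Real.sin θ * p.2 ≤ t} with hS
  have hSm : MeasurableSet S := by
    refine MeasurableSet.inter ?_ ?_
    · exact measurableSet_lt measurable_const measurable_fst
    · exact measurableSet_le ((measurable_const.mul measurable_fst).add
        (measurable_const.mul measurable_snd)) measurable_const
  have hd : ∀ x y : ℝ, gaussianPDF 0 1 x * gaussianPDF 0 1 y =
      ENNReal.ofReal ((2 * Real.pi)⁻¹ * Real.exp (-(x ^ 2 + y ^ 2) / 2)) := by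
    intro x y
    unfold gaussianPDF
    rw [← ENNReal.ofReal_mul (gaussianPDFReal_nonneg _ _ _), gaussianPDFReal_def]
    congr 1
    have e1 : (√(2 * Real.pi * ((1 : NNReal) : ℝ)))⁻¹ * (√(2 * Real.pi * ((1 : NNReal) : ℝ)))⁻¹ =
        (2 * Real.pi)⁻¹ := by
      rw [← mul_inv, Real.mul_self_sqrt (by positivity)]
      simp
    calc (√(2 * Real.pi * ((1 : NNReal) : ℝ)))⁻¹ * Real.exp (-(x - 0) ^ 2 / (2 * ((1 : NNReal) : ℝ))) *
          ((√(2 * Real.pi * ((1 : NNReal) : ℝ)))⁻¹ *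
            Real.exp (-(y - 0) ^ 2 / (2 * ((1 : NNReal) : ℝ))))
        = ((√(2 * Real.pi * ((1 : NNReal) : ℝ)))⁻¹ * (√(2 * Real.pi * ((1 : NNReal) : ℝ)))⁻¹) *
          (Real.exp (-(x - 0) ^ 2 / (2 * ((1 : NNReal) : ℝ))) *
            Real.exp (-(y - 0) ^ 2 / (2 * ((1 : NNReal) : ℝ)))) := by ring
      _ = _ := by
          rw [e1, ← Real.exp_add]
          congr 2
          push_cast
          ring
  set g : ℝ × ℝ → ENNReal := fun p => ENNReal.ofReal
    ((2 * Real.pi)⁻¹ * Real.exp (-(p.1 ^ 2 + p.2 ^ 2) / 2)) with hg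
  have hgm : Measurable g := by
    rw [hg]
    fun_prop
  have hmeas : ((gaussianReal 0 1).prod (gaussianReal 0 1)) S = ∫⁻ p, S.indicator g p := by
    rw [gaussianReal_of_var_ne_zero 0 one_ne_zero,
      prod_withDensity (measurable_gaussianPDF _ _) (measurable_gaussianPDF _ _),
      withDensity_apply _ hSm, lintegral_indicator hSm, ← Measure.volume_eq_prod]
    refine lintegral_congr fun p => ?_
    exact hd p.1 p.2
  have hpol : ∫⁻ p, S.indicator g p = ∫⁻ q : ℝ × ℝ in polarCoord.target,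
      ENNReal.ofReal q.1 • S.indicator g (polarCoord.symm q) :=
    (lintegral_comp_polarCoord_symm _).symm
  have htar : (volume : Measure (ℝ × ℝ)).restrict polarCoord.target =
      (volume.restrict (Set.Ioi (0 : ℝ))).prod (volume.restrict (Set.Ioo (-Real.pi) Real.pi)) := by
    rw [Measure.prod_restrict, ← Measure.volume_eq_prod]
    rfl
  have hsymm : Measurable fun q : ℝ × ℝ => (q.1 * Real.cos q.2, q.1 * Real.sin q.2) := by fun_prop
  have hFm : Measurable fun q : ℝ × ℝ => ENNReal.ofReal q.1 •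
      S.indicator g (polarCoord.symm q) := by
    have h2 : Measurable fun q : ℝ × ℝ => S.indicator g (q.1 * Real.cos q.2, q.1 * Real.sin q.2) :=
      (hgm.indicator hSm).comp hsymm
    exact (measurable_fst.ennreal_ofReal).smul h2
  have hRm : MeasurableSet {q : ℝ × ℝ | t < q.1 * Real.cos (q.2 / 2)} :=
    measurableSet_lt measurable_const (by fun_prop)
  have hin : ∀ r ∈ Set.Ioi (0 : ℝ), ∫⁻ φ in Set.Ioo (-Real.pi) Real.pi, ENNReal.ofReal (r, φ).1 •
      S.indicator g (polarCoord.symm (r, φ)) ≤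
      ∫⁻ φ in Set.Ioo 0 θ, {q : ℝ × ℝ | t < q.1 * Real.cos (q.2 / 2)}.indicator
        (fun q => ENNReal.ofReal (2 * Real.pi)⁻¹ * ENNReal.ofReal (q.1 * Real.exp (-q.1 ^ 2 / 2))) (r, φ) := by
    intro r hr
    have hr0 : 0 < r := hr
    have hM : MeasurableSet {φ : ℝ | t < r * Real.cos φ ∧ r * Real.cos (φ - θ) ≤ t} := by
      refine MeasurableSet.inter ?_ ?_
      · exact measurableSet_lt measurable_const
          (by fun_prop : Measurable fun φ : ℝ => r * Real.cos φ)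
      · exact measurableSet_le (by fun_prop : Measurable fun φ : ℝ => r * Real.cos (φ - θ))
          measurable_const
    have e1 : ∀ φ : ℝ, ENNReal.ofReal (r, φ).1 • S.indicator g (polarCoord.symm (r, φ)) =
        {φ : ℝ | t < r * Real.cos φ ∧ r * Real.cos (φ - θ) ≤ t}.indicator
          (fun _ => ENNReal.ofReal r * ENNReal.ofReal
            ((2 * Real.pi)⁻¹ * Real.exp (-r ^ 2 / 2))) φ := by
      intro φ
      have hps : polarCoord.symm (r, φ) = (r * Real.cos φ, r * Real.sin φ) := rfl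
      have hiff : (r * Real.cos φ, r * Real.sin φ) ∈ S ↔
          φ ∈ {φ : ℝ | t < r * Real.cos φ ∧ r * Real.cos (φ - θ) ≤ t} := by
        rw [hS]
        show (t < r * Real.cos φ ∧ Real.cos θ * (r * Real.cos φ) + Real.sin θ * (r * Real.sin φ) ≤ t) ↔
          (t < r * Real.cos φ ∧ r * Real.cos (φ - θ) ≤ t)
        have : Real.cos θ * (r * Real.cos φ) + Real.sin θ * (r * Real.sin φ) =
            r * Real.cos (φ - θ) := by
          rw [Real.cos_sub]
          ring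
        rw [this]
      rw [hps]
      by_cases hφ : φ ∈ {φ : ℝ | t < r * Real.cos φ ∧ r * Real.cos (φ - θ) ≤ t}
      · rw [Set.indicator_of_mem hφ, Set.indicator_of_mem (hiff.2 hφ), smul_eq_mul, hg]
        have := Real.sin_sq_add_cos_sq φ
        have e2 : (r * Real.cos φ) ^ 2 + (r * Real.sin φ) ^ 2 = r ^ 2 := by
          calc _ = r ^ 2 * (Real.sin φ ^ 2 + Real.cos φ ^ 2) := by ring
            _ = r ^ 2 := by rw [this, mul_one]
        show ENNReal.ofReal r * ENNReal.ofReal ((2 * Real.pi)⁻¹ *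
          Real.exp (-((r * Real.cos φ) ^ 2 + (r * Real.sin φ) ^ 2) / 2)) = _
        rw [e2]
      · rw [Set.indicator_of_notMem hφ, Set.indicator_of_notMem (fun hc => hφ (hiff.1 hc)),
          smul_zero]
    simp_rw [e1]
    rw [lintegral_indicator_const hM, Measure.restrict_apply hM]
    have hset : {φ : ℝ | t < r * Real.cos φ ∧ r * Real.cos (φ - θ) ≤ t} ∩
        Set.Ioo (-Real.pi) Real.pi = {φ : ℝ | φ ∈ Set.Ioo (-Real.pi) Real.pi ∧
          t < r * Real.cos φ ∧ r * Real.cos (φ - θ) ≤ t} := by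
      ext φ
      exact ⟨fun hh => ⟨hh.2, hh.1⟩, fun hh => ⟨hh.2, hh.1⟩⟩
    rw [hset]
    refine (mul_le_mul_right (ang_volB h0 h1 ht hr0) _).trans ?_
    have hM2 : MeasurableSet {φ : ℝ | t < r * Real.cos (φ / 2)} :=
      measurableSet_lt measurable_const (by fun_prop)
    have e3 : ∀ φ : ℝ, {q : ℝ × ℝ | t < q.1 * Real.cos (q.2 / 2)}.indicator
        (fun q => ENNReal.ofReal (2 * Real.pi)⁻¹ * ENNReal.ofReal (q.1 * Real.exp (-q.1 ^ 2 / 2))) (r, φ) =
        {φ : ℝ | t < r * Real.cos (φ / 2)}.indicator (fun _ => ENNReal.ofReal r * ENNReal.ofReal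
            ((2 * Real.pi)⁻¹ * Real.exp (-r ^ 2 / 2))) φ := by
      intro φ
      by_cases hφ : t < r * Real.cos (φ / 2)
      · rw [Set.indicator_of_mem (show (r, φ) ∈ {q : ℝ × ℝ | t < q.1 * Real.cos (q.2 / 2)} from hφ),
          Set.indicator_of_mem (show φ ∈ {φ : ℝ | t < r * Real.cos (φ / 2)} from hφ)]
        rw [← ENNReal.ofReal_mul (by positivity), ← ENNReal.ofReal_mul hr0.le]
        congr 1
        ring
      · rw [Set.indicator_of_notMem (show (r, φ) ∉ {q : ℝ × ℝ | t < q.1 * Real.cos (q.2 / 2)} from hφ),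
          Set.indicator_of_notMem (show φ ∉ {φ : ℝ | t < r * Real.cos (φ / 2)} from hφ)]
    simp_rw [e3]
    rw [lintegral_indicator_const hM2, Measure.restrict_apply hM2]
    refine le_of_eq ?_
    congr 2
    ext φ
    exact ⟨fun hh => ⟨hh.2, hh.1⟩, fun hh => ⟨hh.2, hh.1⟩⟩
  have hfin : ((gaussianReal 0 1).prod (gaussianReal 0 1)) S ≤
      ENNReal.ofReal (Kf (t ^ 2 / 2) θ) := by
    rw [hmeas, hpol, htar, lintegral_prod _ hFm.aemeasurable]
    refine (setLIntegral_mono' measurableSet_Ioi hin).trans ?_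
    have hUm : Measurable (Function.uncurry fun (r φ : ℝ) =>
        {q : ℝ × ℝ | t < q.1 * Real.cos (q.2 / 2)}.indicator
        (fun q => ENNReal.ofReal (2 * Real.pi)⁻¹ * ENNReal.ofReal (q.1 * Real.exp (-q.1 ^ 2 / 2))) (r, φ)) := by
      have : Measurable ({q : ℝ × ℝ | t < q.1 * Real.cos (q.2 / 2)}.indicator
        (fun q : ℝ × ℝ => ENNReal.ofReal (2 * Real.pi)⁻¹ * ENNReal.ofReal (q.1 * Real.exp (-q.1 ^ 2 / 2)))) :=
        Measurable.indicator (by fun_prop) hRm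
      exact this
    rw [lintegral_lintegral_swap hUm.aemeasurable]
    have hφ : ∀ φ ∈ Set.Ioo 0 θ, ∫⁻ r in Set.Ioi (0 : ℝ),
        {q : ℝ × ℝ | t < q.1 * Real.cos (q.2 / 2)}.indicator
        (fun q => ENNReal.ofReal (2 * Real.pi)⁻¹ * ENNReal.ofReal (q.1 * Real.exp (-q.1 ^ 2 / 2))) (r, φ) ≤
        ENNReal.ofReal (2 * Real.pi)⁻¹ * ENNReal.ofReal (Real.exp (-(t ^ 2 / 2)) *
          (1 - (t ^ 2 / 2) * φ ^ 2 / 4 + (t ^ 2 / 2) ^ 2 * φ ^ 4 / 32)) := by
      rintro φ ⟨hp0, hp1⟩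
      have hc : 0 < Real.cos (φ / 2) := Real.cos_pos_of_mem_Ioo ⟨by linarith, by linarith⟩
      have e4 : ∀ r : ℝ, {q : ℝ × ℝ | t < q.1 * Real.cos (q.2 / 2)}.indicator
          (fun q => ENNReal.ofReal (2 * Real.pi)⁻¹ * ENNReal.ofReal (q.1 * Real.exp (-q.1 ^ 2 / 2))) (r, φ) =
          (Set.Ioi (t / Real.cos (φ / 2))).indicator
            (fun r => ENNReal.ofReal (2 * Real.pi)⁻¹ * ENNReal.ofReal (r * Real.exp (-r ^ 2 / 2))) r := by
        intro r
        have hiff : t < r * Real.cos (φ / 2) ↔ t / Real.cos (φ / 2) < r := (div_lt_iff₀ hc).symm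
        by_cases h : t < r * Real.cos (φ / 2)
        · rw [Set.indicator_of_mem (show (r, φ) ∈ {q : ℝ × ℝ | t < q.1 * Real.cos (q.2 / 2)} from h),
            Set.indicator_of_mem (show r ∈ Set.Ioi (t / Real.cos (φ / 2)) from hiff.1 h)]
        · rw [Set.indicator_of_notMem (show (r, φ) ∉ {q : ℝ × ℝ | t < q.1 * Real.cos (q.2 / 2)} from h),
            Set.indicator_of_notMem (show r ∉ Set.Ioi (t / Real.cos (φ / 2)) from fun hh => h (hiff.2 hh))]
      simp_rw [e4]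
      refine (setLIntegral_le_lintegral _ _).trans ?_
      rw [lintegral_indicator measurableSet_Ioi, lintegral_const_mul _ (by fun_prop),
        rad_intB _ (by positivity)]
      exact mul_le_mul_right (ENNReal.ofReal_le_ofReal (ptw hp0 (by linarith))) _
    refine (setLIntegral_mono' measurableSet_Ioo hφ).trans ?_
    rw [lintegral_const_mul _ (by fun_prop), poly_int h0, ← ENNReal.ofReal_mul (by positivity)]
    refine ENNReal.ofReal_le_ofReal (le_of_eq ?_)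
    unfold Kf
    field_simp
  rw [Measure.real]
  refine ENNReal.toReal_le_of_le_ofReal ?_ hfin
  unfold Kf
  refine mul_nonneg (by positivity) ?_
  have h5 : 0 ≤ θ * (1 - (t ^ 2 / 2) * θ ^ 2 / 12 + (t ^ 2 / 2) ^ 2 * θ ^ 4 / 160) := by
    refine mul_nonneg h0 ?_
    nlinarith [sq_nonneg ((t ^ 2 / 2) * θ ^ 2 / 12 - 1), sq_nonneg ((t ^ 2 / 2) * θ ^ 2)]
  linarith

end Pool.Agent.H49.FS
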